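import Mathlib

/-!
The order of the centraliser (module CARDC).
-/

set_option autoImplicit false

namespace EPPA

namespace CARDC

lemma relIndex_le {S β : Type} [Group S] [Finite β] (H K : Subgroup S) (f : S → β)
    (h : ∀ x ∈ K, ∀ y ∈ K, f x = f y → x⁻¹ * y ∈ H) : H.relIndex K ≤ Nat.card β := by
  unfold Subgroup.relIndex Subgroup.index
  refine Nat.card_le_card_of_injective (fun q : K ⧸ H.subgroupOf K => f (q.out : K)) ?_
  intro q q' hq
  have h1 := h _ q.out.2 _ q'.out.2 hq
  have h2 : (QuotientGroup.mk q.out : K ⧸ H.subgroupOf K) = QuotientGroup.mk q'.out := by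
    rw [QuotientGroup.eq, Subgroup.mem_subgroupOf]
    exact h1
  rwa [QuotientGroup.out_eq', QuotientGroup.out_eq'] at h2

/-- The generators. -/
lemma gens {S : Type} [Group S] [Finite S] (hodd : Odd (Nat.card S)) (N : Subgroup S) :
    ∀ (k : ℕ) (A : Subgroup S), A ≤ N → A.relIndex N ≤ k →
      ∃ T : List S, (∀ x ∈ T, x ∈ N) ∧ 3 ^ T.length ≤ A.relIndex N ∧
        ∀ K : Subgroup S, A ≤ K → (∀ x ∈ T, x ∈ K) → N ≤ K := by
  intro k
  induction k with
  | zero =>
    intro A _ h
    have : A.relIndex N ≠ 0 := by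
      unfold Subgroup.relIndex
      exact Subgroup.index_ne_zero_of_finite
    omega
  | succ k ih =>
    intro A hAN hk
    by_cases hNA : N ≤ A
    · refine ⟨[], by simp, ?_, ?_⟩
      · have : A.relIndex N ≠ 0 := by
          unfold Subgroup.relIndex
          exact Subgroup.index_ne_zero_of_finite
        simp only [List.length_nil, pow_zero]
        omega
      · intro K hK _
        exact hNA.trans hK
    · obtain ⟨x, hxN, hxA⟩ := SetLike.not_le_iff_exists.mp hNA
      let A' : Subgroup S := A ⊔ Subgroup.zpowers x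
      have hxA' : x ∈ A' := (le_sup_right : Subgroup.zpowers x ≤ A') (Subgroup.mem_zpowers x)
      have hAA' : A ≤ A' := le_sup_left
      have hA'N : A' ≤ N := sup_le hAN (by rwa [Subgroup.zpowers_le])
      have hmul := Subgroup.relIndex_mul_relIndex A A' N hAA' hA'N
      have hne : A.relIndex A' ≠ 0 := by
        unfold Subgroup.relIndex
        exact Subgroup.index_ne_zero_of_finite
      have hne' : A'.relIndex N ≠ 0 := by
        unfold Subgroup.relIndex
        exact Subgroup.index_ne_zero_of_finite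
      have hne1 : A.relIndex A' ≠ 1 := by
        rw [Ne, Subgroup.relIndex_eq_one]
        intro h
        exact hxA (h hxA')
      have hoddr : Odd (A.relIndex A') := by
        have h1 : A.relIndex A' ∣ Nat.card A' := by
          unfold Subgroup.relIndex
          exact Subgroup.index_dvd_card _
        exact (hodd.of_dvd_nat (Subgroup.card_subgroup_dvd_card A')).of_dvd_nat h1
      have h3 : 3 ≤ A.relIndex A' := by
        obtain ⟨m, hm⟩ := hoddr
        omega
      have hlt : A'.relIndex N ≤ k := by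
        have : A'.relIndex N < A.relIndex N := by
          rw [← hmul]
          nlinarith [Nat.pos_of_ne_zero hne']
        omega
      obtain ⟨T, hT1, hT2, hT3⟩ := ih A' hA'N hlt
      refine ⟨x :: T, ?_, ?_, ?_⟩
      · intro y hy
        rcases List.mem_cons.mp hy with rfl | hy
        · exact hxN
        · exact hT1 y hy
      · rw [List.length_cons, pow_succ, ← hmul, mul_comm]
        exact Nat.mul_le_mul h3 hT2
      · intro K hK hTK
        apply hT3 K
        · exact sup_le hK (by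
            rw [Subgroup.zpowers_le]
            exact hTK x (List.mem_cons_self))
        · intro y hy
          exact hTK y (List.mem_cons_of_mem _ hy)

end CARDC

open CARDC in
theorem cardC {S L : Type} [Group S] [Finite S] (hodd : Odd (Nat.card S)) [Field L]
    (A N C : Subgroup S) (hNn : N.Normal) (hAn : A.Normal) (hAN : A ≤ N) (hNC : N ≤ C)
    (hAC : ∀ c ∈ C, ∀ a ∈ A, c * a = a * c)
    (hcomm : ∀ x ∈ N, ∀ y ∈ N, x * y * x⁻¹ * y⁻¹ ∈ A)
    (χ : A →* Lˣ) (hχ : Function.Injective χ)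
    (hC : ∀ c ∈ C, (∀ n ∈ N, c * n = n * c) → c ∈ A) :
    ∃ g : ℕ, 3 ^ g ≤ A.relIndex N ∧ Nat.card C ≤ Nat.card A * A.relIndex N ^ (g + 1) := by
  classical
  obtain ⟨T, hT1, hT2, hT3⟩ := gens hodd N (A.relIndex N) A hAN le_rfl
  refine ⟨T.length, hT2, ?_⟩
  -- the subgroup `C0`
  let C0 : Subgroup S :=
    { carrier := {c | c ∈ C ∧ ∀ n ∈ N, c * n * c⁻¹ * n⁻¹ ∈ A}
      one_mem' := ⟨C.one_mem, fun n _ => by simp⟩
      mul_mem' := by
        rintro c d ⟨hc, hc'⟩ ⟨hd, hd'⟩
        refine ⟨C.mul_mem hc hd, fun n hn => ?_⟩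
        have h1 : c * d * n * (c * d)⁻¹ * n⁻¹
            = (c * (d * n * d⁻¹ * n⁻¹) * c⁻¹) * (c * n * c⁻¹ * n⁻¹) := by group
        rw [h1]
        exact A.mul_mem (hAn.conj_mem _ (hd' n hn) c) (hc' n hn)
      inv_mem' := by
        rintro c ⟨hc, hc'⟩
        refine ⟨C.inv_mem hc, fun n hn => ?_⟩
        have h1 : c⁻¹ * n * c⁻¹⁻¹ * n⁻¹ = c⁻¹ * (c * n * c⁻¹ * n⁻¹)⁻¹ * c⁻¹⁻¹ := by group
        rw [h1]
        exact hAn.conj_mem _ (A.inv_mem (hc' n hn)) c⁻¹ }
  have hC0C : C0 ≤ C := fun c hc => hc.1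
  have hAC0 : A ≤ C0 := by
    intro a ha
    refine ⟨hNC (hAN ha), fun n hn => ?_⟩
    exact hcomm a (hAN ha) n hn
  -- `C / C0`
  have h1 : C0.relIndex C ≤ A.relIndex N ^ T.length := by
    have hcard : Nat.card (Fin T.length → N ⧸ A.subgroupOf N) = A.relIndex N ^ T.length := by
      rw [Nat.card_fun, Nat.card_eq_fintype_card (α := Fin T.length), Fintype.card_fin]
      rfl
    rw [← hcard]
    refine relIndex_le C0 C
      (fun c i => QuotientGroup.mk ⟨c * T[i] * c⁻¹, hNn.conj_mem _ (hT1 _ (List.getElem_mem _)) c⟩)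
      ?_
    intro c hc d hd hcd
    refine ⟨C.mul_mem (C.inv_mem hc) hd, ?_⟩
    -- the subgroup of the good elements
    let K : Subgroup S :=
      { carrier := {n | n ∈ C ∧ (c⁻¹ * d) * n * (c⁻¹ * d)⁻¹ * n⁻¹ ∈ A}
        one_mem' := ⟨C.one_mem, by simp⟩
        mul_mem' := by
          rintro n m ⟨hn, hn'⟩ ⟨hm, hm'⟩
          refine ⟨C.mul_mem hn hm, ?_⟩
          have e1 : (c⁻¹ * d) * (n * m) * (c⁻¹ * d)⁻¹ * (n * m)⁻¹
              = ((c⁻¹ * d) * n * (c⁻¹ * d)⁻¹ * n⁻¹) *
                (n * ((c⁻¹ * d) * m * (c⁻¹ * d)⁻¹ * m⁻¹) * n⁻¹) := by group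
          rw [e1]
          exact A.mul_mem hn' (hAn.conj_mem _ hm' n)
        inv_mem' := by
          rintro n ⟨hn, hn'⟩
          refine ⟨C.inv_mem hn, ?_⟩
          have e1 : (c⁻¹ * d) * n⁻¹ * (c⁻¹ * d)⁻¹ * n⁻¹⁻¹
              = n⁻¹ * ((c⁻¹ * d) * n * (c⁻¹ * d)⁻¹ * n⁻¹)⁻¹ * n⁻¹⁻¹ := by group
          rw [e1]
          exact hAn.conj_mem _ (A.inv_mem hn') n⁻¹ }
    have hNK : N ≤ K := by
      apply hT3 K
      · intro a ha
        refine ⟨hNC (hAN ha), ?_⟩
        rw [hAC _ (C.mul_mem (C.inv_mem hc) hd) a ha]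
        have e0 : a * (c⁻¹ * d) * (c⁻¹ * d)⁻¹ * a⁻¹ = 1 := by group
        rw [e0]
        exact A.one_mem
      · intro x hx
        obtain ⟨i, hi, rfl⟩ := List.getElem_of_mem hx
        refine ⟨hNC (hT1 _ (List.getElem_mem _)), ?_⟩
        have e1 := congrFun hcd ⟨i, hi⟩
        simp only [QuotientGroup.eq, Subgroup.mem_subgroupOf] at e1
        have e2 : (c * T[i] * c⁻¹)⁻¹ * (d * T[i] * d⁻¹) ∈ A := e1
        have e3 : (c⁻¹ * d) * T[i] * (c⁻¹ * d)⁻¹ * (T[i])⁻¹
            = (T[i] * c⁻¹) * ((c * T[i] * c⁻¹)⁻¹ * (d * T[i] * d⁻¹)) * (T[i] * c⁻¹)⁻¹ := by group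
        rw [e3]
        exact hAn.conj_mem _ e2 _
    exact fun n hn => (hNK hn).2
  -- `C0 / A`
  have h2 : A.relIndex C0 ≤ A.relIndex N := by
    let Q := N ⧸ A.subgroupOf N
    have hAN' : (A.subgroupOf N).Normal := hAn.subgroupOf N
    have hcm : ∀ c : C0, ∀ n : N, (c : S) * n * (c : S)⁻¹ * (n : S)⁻¹ ∈ A :=
      fun c n => c.2.2 n n.2
    let h : C0 → (N →* A) := fun c =>
      { toFun := fun n => ⟨(c : S) * n * (c : S)⁻¹ * (n : S)⁻¹, hcm c n⟩
        map_one' := by
          apply Subtype.ext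
          simp
        map_mul' := by
          intro n m
          apply Subtype.ext
          simp only [Subgroup.coe_mul, mul_inv_rev]
          have e1 : (c : S) * (n * m) * (c : S)⁻¹ * ((m : S)⁻¹ * (n : S)⁻¹)
              = ((c : S) * n * (c : S)⁻¹) * ((c : S) * m * (c : S)⁻¹ * (m : S)⁻¹) * (n : S)⁻¹ := by
            group
          rw [e1]
          have e2 := hAC (n : S)⁻¹ (C.inv_mem (hNC n.2)) _ (hcm c m)
          rw [mul_assoc, ← e2, ← mul_assoc] }
    let h' : C0 → (Q →* L) := fun c =>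
      (Units.coeHom L).comp (QuotientGroup.lift (A.subgroupOf N) (χ.comp (h c)) (by
        intro n hn
        have hn' : (n : S) ∈ A := hn
        have : h c n = 1 := by
          apply Subtype.ext
          change (c : S) * n * (c : S)⁻¹ * (n : S)⁻¹ = 1
          rw [hAC c c.2.1 n hn']
          group
        rw [MonoidHom.mem_ker, MonoidHom.comp_apply, this, map_one]))
    have hinj : ∀ c d : C0, h' c = h' d → (c : S)⁻¹ * d ∈ A := by
      intro c d hcd
      apply hC
      · exact C.mul_mem (C.inv_mem c.2.1) d.2.1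
      · intro n hn
        have e1 := DFunLike.congr_fun hcd (QuotientGroup.mk ⟨n, hn⟩)
        have e2 : χ (h c ⟨n, hn⟩) = χ (h d ⟨n, hn⟩) := Units.ext e1
        have e3 := congrArg Subtype.val (hχ e2)
        change (c : S) * n * (c : S)⁻¹ * n⁻¹ = (d : S) * n * (d : S)⁻¹ * n⁻¹ at e3
        have e4 : (c : S) * n * (c : S)⁻¹ = (d : S) * n * (d : S)⁻¹ := by
          exact mul_right_cancel e3
        have e5 : (c : S)⁻¹ * ((d : S) * n * (d : S)⁻¹) * d = (c : S)⁻¹ * ((c : S) * n * (c : S)⁻¹) * d := by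
          rw [e4]
        have e6 : (c : S)⁻¹ * ((d : S) * n * (d : S)⁻¹) * d = (c : S)⁻¹ * d * n := by group
        have e7 : (c : S)⁻¹ * ((c : S) * n * (c : S)⁻¹) * d = n * ((c : S)⁻¹ * d) := by group
        rw [← e6, e5, e7]
    unfold Subgroup.relIndex Subgroup.index
    have : Fintype (C0 ⧸ A.subgroupOf C0) := Fintype.ofFinite _
    have : Fintype Q := Fintype.ofFinite _
    have hli := (linearIndependent_monoidHom Q L).comp
      (fun q : C0 ⧸ A.subgroupOf C0 => h' q.out) (by
        intro q q' hq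
        have h1 := hinj _ _ hq
        have h2 : (QuotientGroup.mk q.out : C0 ⧸ A.subgroupOf C0) = QuotientGroup.mk q'.out := by
          rw [QuotientGroup.eq, Subgroup.mem_subgroupOf]
          exact h1
        rwa [QuotientGroup.out_eq', QuotientGroup.out_eq'] at h2)
    have hle := hli.fintype_card_le_finrank
    rw [Module.finrank_fintype_fun_eq_card] at hle
    rw [Nat.card_eq_fintype_card, Nat.card_eq_fintype_card]
    exact hle
  have h3 : A.relIndex C0 * C0.relIndex C = A.relIndex C :=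
    Subgroup.relIndex_mul_relIndex A C0 C hAC0 hC0C
  have h4 : Nat.card A * A.relIndex C = Nat.card C := by
    have := Subgroup.relIndex_mul_relIndex ⊥ A C bot_le (hAC0.trans hC0C)
    rwa [Subgroup.relIndex_bot_left, Subgroup.relIndex_bot_left] at this
  rw [← h4, ← h3, pow_succ]
  apply Nat.mul_le_mul_left
  rw [mul_comm]
  exact Nat.mul_le_mul h1 h2

end EPPA
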