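import Pool.Agent.Lib.MP_4e105e_co.Defs

/-!
Module CSYS of MP_4e105e_co: the order of a direct sum.
-/

set_option autoImplicit false

namespace EPPA

theorem card_system {V : Type} [AddCommGroup V] [Finite V] (F : Set (AddSubgroup V))
    (hF : sSupIndep F) (htop : sSup F = ⊤) : ∏ᶠ U : F, Nat.card (U : AddSubgroup V) = Nat.card V := by
  classical
  have hind : iSupIndep (fun U : F => (U : AddSubgroup V)) := (sSupIndep_iff F).1 hF
  have hfin : Finite F := inferInstance
  have := Fintype.ofFinite F
  let f := DFinsupp.sumAddHom (fun U : F => (U : AddSubgroup V).subtype)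
  have hinj : Function.Injective f := hind.dfinsuppSumAddHom_injective
  have hsurj : Function.Surjective f := by
    rw [← AddMonoidHom.range_eq_top, eq_top_iff, ← htop]
    apply sSup_le
    intro U hU v hv
    refine ⟨DFinsupp.single (⟨U, hU⟩ : F) ⟨v, hv⟩, ?_⟩
    simp [f]
  rw [finprod_eq_prod_of_fintype, ← Nat.card_pi]
  apply Nat.card_congr
  exact (DFinsupp.equivFunOnFintype (β := fun U : F => (U : AddSubgroup V))).symm.trans
    (Equiv.ofBijective f ⟨hinj, hsurj⟩)

end EPPA
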