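import Mathlib

set_option autoImplicit false

namespace EPPA

/-- A finite group which embeds in a product has order at most the product of the orders of its
projections. -/
theorem card_le_prod {ι K : Type} [Finite ι] [Group K] [Finite K] (H : ι → Type)
    [∀ i, Group (H i)] (f : ∀ i, K →* H i) (hf : ∀ k : K, (∀ i, f i k = 1) → k = 1) :
    Nat.card K ≤ ∏ᶠ i, Nat.card (f i).range := by
  classical
  have := Fintype.ofFinite ι
  have : ∀ i, Finite (f i).range := fun i =>
    Finite.of_surjective (f i).rangeRestrict (f i).rangeRestrict_surjective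
  rw [finprod_eq_prod_of_fintype, ← Nat.card_pi]
  refine Nat.card_le_card_of_injective
    (fun k => fun i => (⟨f i k, k, rfl⟩ : (f i).range)) ?_
  intro a b hab
  have h1 : a * b⁻¹ = 1 := hf _ (fun i => by
    have h2 : f i a = f i b := congrArg Subtype.val (congrFun hab i)
    rw [map_mul, map_inv, h2, mul_inv_cancel])
  exact mul_inv_eq_one.mp h1

/-- The orbit-stabiliser theorem for a homomorphism to a symmetric group. -/
theorem card_eq_orbit_mul {Ω G : Type} [Finite Ω] [Group G] [Finite G] (φ : G →* Equiv.Perm Ω)
    (x : Ω) : Nat.card G = Nat.card {y : Ω // ∃ g : G, φ g x = y} *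
      Nat.card {g : G // φ g x = x} := by
  let _ : MulAction G Ω := MulAction.compHom Ω φ
  have h1 : Nat.card (MulAction.orbit G x × MulAction.stabilizer G x) = Nat.card G :=
    Nat.card_congr (MulAction.orbitProdStabilizerEquivGroup G x)
  rw [Nat.card_prod] at h1
  exact h1.symm

end EPPA
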