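import Pool.Agent.Lib.MP_4e105e_co.Defs

set_option autoImplicit false

namespace EPPA

theorem Real.inv_app {Ω G : Type} [Group G] (φ : G →* Equiv.Perm Ω) (g : G) (x : Ω) :
    φ g⁻¹ (φ g x) = x := by
  rw [← Equiv.Perm.mul_apply, ← map_mul, inv_mul_cancel, map_one]
  rfl

theorem Realises.range {Ω G : Type} [Group G] {φ : G →* Equiv.Perm Ω} {n : ℕ} {b : ℕ → Ω}
    (h : Realises φ n b) : Realises φ.range.subtype n b := by
  refine ⟨h.1, fun D f hD hf => ?_⟩
  obtain ⟨g, hg⟩ := h.2 D f hD hf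
  exact ⟨⟨φ g, g, rfl⟩, hg⟩

/-- The stabiliser of `b 0` realises on `b 1, …, b n`. -/
theorem Realises.stab {Ω G : Type} [Group G] {φ : G →* Equiv.Perm Ω} {n : ℕ} {b : ℕ → Ω}
    (h : Realises φ (n + 1) b) (H : Subgroup G) (hH : ∀ g : G, φ g (b 0) = b 0 → g ∈ H) :
    Realises (φ.comp H.subtype) n (fun i => b (i + 1)) := by
  refine ⟨fun i j hi hj hij => ?_, fun D f hD hf => ?_⟩
  · have := h.1 (i + 1) (j + 1) (by omega) (by omega) hij
    omega
  · let D' : Set ℕ := {k | k = 0 ∨ ∃ x ∈ D, k = x + 1}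
    let f' : ℕ → ℕ := fun k => if k = 0 then 0 else f (k - 1) + 1
    have h0 : f' 0 = 0 := rfl
    have h1 : ∀ x, f' (x + 1) = f x + 1 := fun x => by simp [f']
    obtain ⟨g, hg⟩ := h.2 D' f' (by
      rintro k (rfl | ⟨x, hx, rfl⟩)
      · exact ⟨by omega, by rw [h0]; omega⟩
      · have := hD x hx
        rw [h1]
        omega) (by
      rintro k (rfl | ⟨x, hx, rfl⟩) l (rfl | ⟨y, hy, rfl⟩) hkl
      · omega
      · rw [h0, h1]; omega
      · omega
      · rw [h1, h1]
        have := hf hx hy (by omega)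
        omega)
    have hg0 : φ g (b 0) = b 0 := by
      have := hg 0 (Or.inl rfl)
      rwa [h0] at this
    refine ⟨⟨g, hH g hg0⟩, fun x hx => ?_⟩
    have := hg (x + 1) (Or.inr ⟨x, hx, rfl⟩)
    rw [h1] at this
    exact this

/-- Restriction to an invariant subset. -/
theorem Realises.sub {Ω G : Type} [Group G] {φ : G →* Equiv.Perm Ω} {n : ℕ} {b : ℕ → Ω}
    (h : Realises φ n b) (hn : 0 < n) (Δ : Set Ω) (hΔ : ∀ (g : G) (x : Ω), x ∈ Δ → φ g x ∈ Δ)
    (hb : ∀ i, i < n → b i ∈ Δ) :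
    ∃ (ψ : G →* Equiv.Perm Δ) (c : ℕ → Δ), (∀ (g : G) (x : Δ), (ψ g x : Ω) = φ g x) ∧
      Realises ψ n c := by
  classical
  have hiff : ∀ (g : G) (x : Ω), φ g x ∈ Δ ↔ x ∈ Δ := by
    intro g x
    refine ⟨fun hx => ?_, hΔ g x⟩
    have h1 := hΔ g⁻¹ _ hx
    rw [Real.inv_app] at h1
    exact h1
  let ψ : G →* Equiv.Perm Δ := MonoidHom.mk' (fun g => (φ g).subtypePerm (hiff g)) (by
    intro a b
    refine Equiv.ext fun x => Subtype.ext ?_
    show φ (a * b) (x : Ω) = φ a (φ b x)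
    rw [map_mul]
    rfl)
  have hψ : ∀ (g : G) (x : Δ), (ψ g x : Ω) = φ g x := fun g x => rfl
  let c : ℕ → Δ := fun i => if hi : i < n then ⟨b i, hb i hi⟩ else ⟨b 0, hb 0 hn⟩
  have hc : ∀ i, i < n → (c i : Ω) = b i := fun i hi => by simp [c, hi]
  refine ⟨ψ, c, hψ, fun i j hi hj hij => ?_, fun D f hD hf => ?_⟩
  · apply h.1 i j hi hj
    rw [← hc i hi, ← hc j hj, hij]
  · obtain ⟨g, hg⟩ := h.2 D f hD hf
    refine ⟨g, fun x hx => Subtype.ext ?_⟩
    rw [hψ, hc x (hD x hx).1, hc (f x) (hD x hx).2, hg x hx]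

/-- The quotient by an invariant equivalence relation separating `b 0` and `b 1`. -/
theorem Realises.quot {Ω G : Type} [Group G] {φ : G →* Equiv.Perm Ω} {n : ℕ} {b : ℕ → Ω}
    (h : Realises φ n b) (r : Setoid Ω) (hr : InvSetoid φ r)
    (hb : ∀ i j, i < n → j < n → r (b i) (b j) → i = j) :
    ∃ ψ : G →* Equiv.Perm (Quotient r), (∀ (g : G) (x : Ω),
      ψ g (Quotient.mk r x) = Quotient.mk r (φ g x)) ∧
      Realises ψ n (fun i => Quotient.mk r (b i)) := by
  have hiff : ∀ (g : G) (x y : Ω), r x y ↔ r (φ g x) (φ g y) := by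
    intro g x y
    refine ⟨hr g x y, fun hx => ?_⟩
    have h1 := hr g⁻¹ _ _ hx
    rw [Real.inv_app, Real.inv_app] at h1
    exact h1
  let ψ : G →* Equiv.Perm (Quotient r) :=
    MonoidHom.mk' (fun g => Quotient.congr (φ g) (hiff g)) (by
      intro a b
      ext x
      refine Quotient.inductionOn x fun x => ?_
      simp [Quotient.congr_mk])
  have hψ : ∀ (g : G) (x : Ω), ψ g (Quotient.mk r x) = Quotient.mk r (φ g x) := fun g x => rfl
  refine ⟨ψ, hψ, fun i j hi hj hij => hb i j hi hj (Quotient.exact hij), fun D f hD hf => ?_⟩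
  obtain ⟨g, hg⟩ := h.2 D f hD hf
  refine ⟨g, fun x hx => ?_⟩
  show ψ g (Quotient.mk r (b x)) = Quotient.mk r (b (f x))
  rw [hψ, hg x hx]

/-- Two equivalent points: then all the points are equivalent. -/
theorem Realises.all_or {Ω G : Type} [Group G] {φ : G →* Equiv.Perm Ω} {n : ℕ} {b : ℕ → Ω}
    (h : Realises φ n b) (r : Setoid Ω) (hr : InvSetoid φ r) :
    (∀ i j, i < n → j < n → r (b i) (b j) → i = j) ∨ (∀ i, i < n → r (b 0) (b i)) := by
  have key : ∀ i j, i < j → j < n → r (b i) (b j) → ∀ k, k < n → r (b 0) (b k) := by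
    intro i j hij hj hrij k hk
    rcases Nat.eq_zero_or_pos k with rfl | hk0
    · exact r.refl' _
    · let f : ℕ → ℕ := fun x => if x = i then 0 else k
      obtain ⟨g, hg⟩ := h.2 {x | x = i ∨ x = j} f (by
        rintro x (rfl | rfl)
        · simp only [f, if_true]; omega
        · simp only [f, if_neg (show x ≠ i by omega)]
          omega) (by
        rintro x (rfl | rfl) y (rfl | rfl) hxy
        · omega
        · simp only [f, if_true, if_neg (show y ≠ x by omega)]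
          omega
        · omega
        · omega)
      have h1 := hg i (Or.inl rfl)
      have h2 := hg j (Or.inr rfl)
      simp only [f, if_true] at h1
      simp only [f, if_neg (show j ≠ i by omega)] at h2
      rw [← h1, ← h2]
      exact hr g _ _ hrij
  by_cases hsep : ∀ i j, i < n → j < n → r (b i) (b j) → i = j
  · exact Or.inl hsep
  · right
    push Not at hsep
    obtain ⟨i, j, hi, hj, hrij, hne⟩ := hsep
    rcases lt_or_gt_of_ne hne with hlt | hlt
    · exact key i j hlt hj hrij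
    · exact key j i hlt hi (r.symm' hrij)

/-- The class of `b 0`: its stabiliser realises on it. -/
theorem Realises.cls {Ω G : Type} [Group G] {φ : G →* Equiv.Perm Ω} {n : ℕ} {b : ℕ → Ω}
    (h : Realises φ n b) (hn : 0 < n) (r : Setoid Ω) (hr : InvSetoid φ r)
    (hb : ∀ i, i < n → r (b 0) (b i)) :
    ∃ (H : Subgroup G) (ψ : H →* Equiv.Perm {x : Ω // r (b 0) x}) (c : ℕ → {x : Ω // r (b 0) x}),
      Realises ψ n c := by
  classical
  have hinv : ∀ (g : G) (x : Ω), φ g⁻¹ (φ g x) = x := Real.inv_app φ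
  let H : Subgroup G :=
    { carrier := {g | r (b 0) (φ g (b 0))}
      one_mem' := by
        show r (b 0) (φ 1 (b 0))
        rw [map_one]
        exact r.refl' _
      mul_mem' := by
        intro a c ha hc
        show r (b 0) (φ (a * c) (b 0))
        rw [map_mul]
        exact r.trans' ha (hr a _ _ hc)
      inv_mem' := by
        intro a ha
        show r (b 0) (φ a⁻¹ (b 0))
        have h1 := hr a⁻¹ _ _ ha
        rw [hinv] at h1
        exact r.symm' h1 }
  have hH : ∀ g : G, g ∈ H ↔ r (b 0) (φ g (b 0)) := fun g => Iff.rfl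
  have hmem : ∀ g : G, g ∈ H → ∀ x, r (b 0) x → r (b 0) (φ g x) := fun g hg x hx =>
    r.trans' hg (hr g _ _ hx)
  have hiff : ∀ (g : H) (x : Ω), r (b 0) (φ g x) ↔ r (b 0) x := by
    intro g x
    refine ⟨fun hx => ?_, hmem g g.2 x⟩
    have h1 := hmem (g : G)⁻¹ (H.inv_mem g.2) _ hx
    rwa [hinv] at h1
  let ψ : H →* Equiv.Perm {x : Ω // r (b 0) x} :=
    MonoidHom.mk' (fun g => (φ g).subtypePerm (hiff g)) (by
      intro a b
      refine Equiv.ext fun x => Subtype.ext ?_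
      show φ (a * b : G) (x : Ω) = φ a (φ b x)
      rw [map_mul]
      rfl)
  have hψ : ∀ (g : H) (x : {x : Ω // r (b 0) x}), (ψ g x : Ω) = φ g x := fun g x => rfl
  let c : ℕ → {x : Ω // r (b 0) x} :=
    fun i => if hi : i < n then ⟨b i, hb i hi⟩ else ⟨b 0, hb 0 hn⟩
  have hc : ∀ i, i < n → (c i : Ω) = b i := fun i hi => by simp [c, hi]
  refine ⟨H, ψ, c, fun i j hi hj hij => ?_, fun D f hD hf => ?_⟩
  · apply h.1 i j hi hj
    rw [← hc i hi, ← hc j hj, hij]
  · rcases Set.eq_empty_or_nonempty D with rfl | ⟨x0, hx0⟩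
    · exact ⟨1, fun x hx => absurd hx (Set.notMem_empty x)⟩
    · obtain ⟨g, hg⟩ := h.2 D f hD hf
      have h1 : r (φ g (b 0)) (φ g (b x0)) := hr g _ _ (hb x0 (hD x0 hx0).1)
      rw [hg x0 hx0] at h1
      have h2 : g ∈ H := (hH g).2 (r.trans' (hb _ (hD x0 hx0).2) (r.symm' h1))
      refine ⟨⟨g, h2⟩, fun x hx => Subtype.ext ?_⟩
      rw [hψ, hc x (hD x hx).1, hc (f x) (hD x hx).2]
      exact hg x hx

end EPPA
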