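import Pool.Agent.Lib.MP_4e105e_co.Defs
import Pool.Agent.Lib.MP_4e105e_co.Prod
import Pool.Agent.Lib.MP_4e105e_co.Real

set_option autoImplicit false

namespace EPPA

theorem Chain.move {Ω G : Type} [Group G] {φ : G →* Equiv.Perm Ω} {n : ℕ} {b : ℕ → Ω}
    (h : Realises φ n b) {i j : ℕ} (hi : i < n) (hj : j < n) : ∃ g : G, φ g (b i) = b j := by
  obtain ⟨g, hg⟩ := h.2 {i} (fun _ => j) (by
    intro x hx
    rw [Set.mem_singleton_iff] at hx
    subst hx
    exact ⟨hi, hj⟩) (by
    intro x hx y hy hxy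
    rw [Set.mem_singleton_iff] at hx hy
    omega)
  exact ⟨g, hg i (Set.mem_singleton i)⟩

theorem lower_one : Lower 1 1 := by
  intro Ω G _ _ _ _ φ b _ _
  have : Nonempty Ω := ⟨b 0⟩
  exact_mod_cast Nat.card_pos (α := Ω)

theorem lower_two : Lower 2 3 := by
  intro Ω G _ _ _ _ φ b hodd hb
  obtain ⟨g, hg⟩ := Chain.move hb (i := 0) (j := 1) (by norm_num) (by norm_num)
  have hne : b 0 ≠ b 1 := fun h => by
    have := hb.1 0 1 (by norm_num) (by norm_num) h
    omega
  have hcard := card_eq_orbit_mul φ (b 0)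
  have ho : Odd (Nat.card {y : Ω // ∃ g : G, φ g (b 0) = y}) := by
    rw [hcard] at hodd
    exact (Nat.odd_mul.mp hodd).1
  have h1 : 1 < Nat.card {y : Ω // ∃ g : G, φ g (b 0) = y} := by
    rw [Finite.one_lt_card_iff_nontrivial]
    refine ⟨⟨⟨b 0, 1, by simp⟩, ⟨b 1, g, hg⟩, ?_⟩⟩
    intro h
    exact hne (congrArg Subtype.val h)
  have h2 : 3 ≤ Nat.card {y : Ω // ∃ g : G, φ g (b 0) = y} := by
    rcases ho with ⟨k, hk⟩
    omega
  have h3 : Nat.card {y : Ω // ∃ g : G, φ g (b 0) = y} ≤ Nat.card Ω := Finite.card_subtype_le _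
  exact_mod_cast h2.trans h3

theorem lower_mono {n : ℕ} {x y : ℝ} (h : Lower n x) (hxy : y ≤ x) : Lower n y := by
  intro Ω G _ _ _ _ φ b hodd hb
  exact hxy.trans (h Ω G φ b hodd hb)

theorem chain (x : ℕ → ℝ) (hx : ∀ j, 0 ≤ x j) (n : ℕ) (hl : ∀ j, 1 ≤ j → j ≤ n → Lower j (x j))
    (Ω G : Type) [Finite Ω] [Group G] [Finite G] [Group.IsSolvable G] (φ : G →* Equiv.Perm Ω)
    (b : ℕ → Ω) (hodd : Odd (Nat.card G)) (hb : Realises φ n b) :
    ∏ j ∈ Finset.Icc 1 n, x j ≤ (Nat.card G : ℝ) := by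
  induction n generalizing G b with
  | zero =>
    rw [Finset.Icc_eq_empty (by norm_num), Finset.prod_empty]
    exact_mod_cast Nat.card_pos (α := G)
  | succ n ih =>
    rw [Finset.prod_Icc_succ_top (by omega)]
    let Δ : Set Ω := {y : Ω | ∃ g : G, φ g (b 0) = y}
    obtain ⟨ψ, c, _, hc⟩ := hb.sub (by omega) Δ (by
      rintro g y ⟨g', rfl⟩
      exact ⟨g * g', by simp⟩) (fun i hi => Chain.move hb (by omega) hi)
    have h1 : x (n + 1) ≤ (Nat.card Δ : ℝ) := hl (n + 1) (by omega) le_rfl Δ G ψ c hodd hc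
    let H : Subgroup G :=
      { carrier := {g : G | φ g (b 0) = b 0}
        mul_mem' := by
          intro g g' hg hg'
          have e1 : φ g (b 0) = b 0 := hg
          have e2 : φ g' (b 0) = b 0 := hg'
          change φ (g * g') (b 0) = b 0
          rw [map_mul, Equiv.Perm.mul_apply, e2, e1]
        one_mem' := by
          change φ 1 (b 0) = b 0
          simp
        inv_mem' := by
          intro g hg
          have e1 : φ g (b 0) = b 0 := hg
          change φ g⁻¹ (b 0) = b 0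
          rw [map_inv, Equiv.Perm.inv_eq_iff_eq]
          exact e1.symm }
    have h2 := ih (fun j h1 h2 => hl j h1 (by omega)) H (φ.comp H.subtype) (fun i => b (i + 1))
      (hodd.of_dvd_nat (Subgroup.card_subgroup_dvd_card H)) (hb.stab H fun g hg => hg)
    have h3 : Nat.card G = Nat.card Δ * Nat.card H := card_eq_orbit_mul φ (b 0)
    rw [h3, mul_comm]
    push_cast
    exact mul_le_mul h1 h2 (Finset.prod_nonneg fun j _ => hx j) (by positivity)

end EPPA
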