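import Mathlib

/-!
Definitions for the lower bounds on EPPA witnesses of tournaments (MP_4e105e_co).
-/

set_option autoImplicit false

namespace EPPA

/-! ### Permutation groups -/

/-- The equivalence relation `r` is invariant under the permutation group `φ`. -/
def InvSetoid {Ω P : Type} [Group P] (φ : P →* Equiv.Perm Ω) (r : Setoid Ω) : Prop :=
  ∀ (g : P) (x y : Ω), r x y → r (φ g x) (φ g y)

/-- The permutation group `φ` has no invariant equivalence relation except `⊥` and `⊤`. -/
def NoSetoid {Ω P : Type} [Group P] (φ : P →* Equiv.Perm Ω) : Prop :=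
  ∀ r : Setoid Ω, InvSetoid φ r → r = ⊥ ∨ r = ⊤

/-- Every solvable permutation group of odd order on `N ≥ 1` points has order at most
`3 ^ (N - 1)`. -/
def PermB (N : ℕ) : Prop :=
  ∀ (Ω P : Type) [Finite Ω] [Nonempty Ω] [Group P] [Finite P] [Group.IsSolvable P]
    (φ : P →* Equiv.Perm Ω), Nat.card Ω = N → Odd (Nat.card P) →
    3 * Nat.card φ.range ≤ 3 ^ N

/-! ### Groups of automorphisms of a finite abelian group -/

/-- All permutations `φ s` are additive. -/
def Adv {V S : Type} [AddCommGroup V] [Group S] (φ : S →* Equiv.Perm V) : Prop :=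
  ∀ (s : S) (v w : V), φ s (v + w) = φ s v + φ s w

/-- `V ≠ 0` and the only invariant subgroups are `⊥` and `⊤`. -/
def Irr {V S : Type} [AddCommGroup V] [Group S] (φ : S →* Equiv.Perm V) : Prop :=
  (∃ v : V, v ≠ 0) ∧
    ∀ W : AddSubgroup V, (∀ (s : S) (w : V), w ∈ W → φ s w ∈ W) → W = ⊥ ∨ W = ⊤

/-- `F` is a system of imprimitivity. -/
def IsSystem {V S : Type} [AddCommGroup V] [Group S] (φ : S →* Equiv.Perm V)
    (F : Set (AddSubgroup V)) : Prop :=
  F.Nontrivial ∧ (∀ U ∈ F, U ≠ ⊥) ∧
    (∀ (s : S), ∀ U ∈ F, ∃ U' ∈ F, ∀ v : V, φ s v ∈ U' ↔ v ∈ U) ∧ sSupIndep F ∧ sSup F = ⊤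

/-- Every solvable irreducible group of odd order on an abelian group of odd order `N` has order at
most `N ^ 2 / 3`. -/
def IrrB (N : ℕ) : Prop :=
  ∀ (V S : Type) [AddCommGroup V] [Finite V] [Group S] [Finite S] [Group.IsSolvable S]
    (φ : S →* Equiv.Perm V), Adv φ → Irr φ → Nat.card V = N → Odd N → Odd (Nat.card S) →
    3 * Nat.card φ.range ≤ N ^ 2

/-! ### Realisations of the transitive tournament -/

/-- The points `b 0, …, b (n-1)` are distinct and every strictly increasing partial map of
`{0, …, n-1}` is realised on them by the permutation group `φ`. -/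
def Realises {Ω G : Type} [Group G] (φ : G →* Equiv.Perm Ω) (n : ℕ) (b : ℕ → Ω) : Prop :=
  (∀ i j, i < n → j < n → b i = b j → i = j) ∧
    ∀ (D : Set ℕ) (f : ℕ → ℕ), (∀ x ∈ D, x < n ∧ f x < n) → StrictMonoOn f D →
      ∃ g : G, ∀ x ∈ D, φ g (b x) = b (f x)

/-- Every solvable permutation group of odd order which realises the increasing partial maps of
`{0, …, n-1}` has degree at least `x`. -/
def Lower (n : ℕ) (x : ℝ) : Prop :=
  ∀ (Ω G : Type) [Finite Ω] [Group G] [Finite G] [Group.IsSolvable G] (φ : G →* Equiv.Perm Ω)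
    (b : ℕ → Ω), Odd (Nat.card G) → Realises φ n b → x ≤ (Nat.card Ω : ℝ)

/-! ### Nilpotent length -/

/-- `G` is an extension by successive nilpotent normal subgroups, `k` of them: for solvable finite
`G` this says that the Fitting height (nilpotent length) of `G` is at most `k`. -/
def NilLen : ℕ → ∀ (G : Type) [Group G], Prop
  | 0, G, _ => Subsingleton G
  | k + 1, G, _ => ∃ (N : Subgroup G) (_ : N.Normal), Group.IsNilpotent N ∧ NilLen k (G ⧸ N)

end EPPA
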