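import Pool.Agent.Lib.MP_4e105e_co.Defs

/-!
Module FIELD of MP_4e105e_co: a normal abelian subgroup of a primitive linear group acts by scalars
of a finite field.
-/

set_option autoImplicit false

namespace EPPA

namespace Fld

section General

variable {V S R : Type} [AddCommGroup V] [Group S] [CommRing R] [Module R V]

/-- The vectors killed by the ideal `M`. -/
def tor (M : Ideal R) : AddSubgroup V where
  carrier := {v | ∀ r ∈ M, r • v = 0}
  zero_mem' := fun r _ => smul_zero r
  add_mem' := fun {a b} ha hb r hr => by rw [smul_add, ha r hr, hb r hr, add_zero]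
  neg_mem' := fun {a} ha r hr => by rw [smul_neg, ha r hr, neg_zero]

theorem mem_tor {M : Ideal R} {v : V} : v ∈ tor M ↔ ∀ r ∈ M, r • v = 0 := Iff.rfl

/-- The vectors killed by an element congruent to `1` modulo `M`. -/
def coTor (M : Ideal R) : AddSubgroup V where
  carrier := {v | ∃ r : R, 1 - r ∈ M ∧ r • v = 0}
  zero_mem' := ⟨1, by simp, by simp⟩
  add_mem' := by
    rintro a b ⟨r, hr, hra⟩ ⟨s, hs, hsb⟩
    refine ⟨r * s, ?_, ?_⟩
    · have h : 1 - r * s = (1 - r) + r * (1 - s) := by ring
      rw [h]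
      exact M.add_mem hr (M.mul_mem_left r hs)
    · rw [smul_add, mul_smul r s b, hsb, smul_zero, mul_comm r s, mul_smul, hra, smul_zero,
        add_zero]
  neg_mem' := by
    rintro a ⟨r, hr, hra⟩
    exact ⟨r, hr, by rw [smul_neg, hra, neg_zero]⟩

theorem mem_coTor {M : Ideal R} {v : V} : v ∈ coTor M ↔ ∃ r : R, 1 - r ∈ M ∧ r • v = 0 := Iff.rfl

theorem tor_le_coTor {M M' : Ideal R} (h : M ⊔ M' = ⊤) : (tor M' : AddSubgroup V) ≤ coTor M := by
  intro v hv
  have h1 : (1 : R) ∈ M ⊔ M' := by rw [h]; trivial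
  obtain ⟨a, ha, b, hb, hab⟩ := Submodule.mem_sup.1 h1
  refine ⟨b, ?_, hv b hb⟩
  have : 1 - b = a := by rw [← hab]; ring
  rw [this]
  exact ha

theorem tor_inf_coTor (M : Ideal R) : (tor M : AddSubgroup V) ⊓ coTor M = ⊥ := by
  rw [eq_bot_iff]
  rintro v ⟨h1, r, hr, hrv⟩
  have h2 : (1 - r) • v = 0 := h1 _ hr
  rw [sub_smul, hrv, one_smul, sub_zero] at h2
  exact h2

variable (V R) in
/-- The family of the nonzero `tor M`. -/
def fam : Set (AddSubgroup V) := {U | ∃ M : Ideal R, M.IsMaximal ∧ U = tor M ∧ U ≠ ⊥}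

theorem fam_indep : sSupIndep (fam V R) := by
  rintro U ⟨M, hM, rfl, hne⟩
  rw [disjoint_iff, eq_bot_iff]
  have h1 : sSup (fam V R \ {tor M}) ≤ coTor M := by
    apply sSup_le
    rintro W ⟨⟨M', hM', rfl, -⟩, hne'⟩
    apply tor_le_coTor
    apply hM.coprime_of_ne hM'
    rintro rfl
    exact hne' rfl
  calc tor M ⊓ sSup (fam V R \ {tor M}) ≤ tor M ⊓ coTor M := inf_le_inf le_rfl h1
    _ = ⊥ := tor_inf_coTor M

/-- An automorphism compatible with an automorphism of `R` permutes the `tor M`. -/
theorem tor_map (M : Ideal R) (f : V ≃ V) (c : R ≃+* R) (hc : ∀ (r : R) (v : V), f (r • v) = c r • f v)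
    (h0 : ∀ v, f v = 0 ↔ v = 0) (v : V) :
    f v ∈ (tor (M.comap (c.symm : R →+* R)) : AddSubgroup V) ↔ v ∈ (tor M : AddSubgroup V) := by
  rw [mem_tor, mem_tor]
  constructor
  · intro h r hr
    have := h (c r) (by simpa using hr)
    rw [← hc, h0] at this
    exact this
  · intro h r hr
    have h1 := h (c.symm r) (by simpa using hr)
    have h2 : f (c.symm r • v) = 0 := (h0 _).2 h1
    rw [hc, RingEquiv.apply_symm_apply] at h2
    exact h2

theorem fam_nonempty [Finite R] (hV : ∃ v : V, v ≠ 0) : (fam V R).Nonempty := by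
  obtain ⟨v, hv⟩ := hV
  obtain ⟨P, hP, -⟩ := exists_le_isAssociatedPrime_of_isNoetherianRing R v hv
  rw [isAssociatedPrime_iff] at hP
  obtain ⟨hprime, x, hx⟩ := hP
  have hmax : P.IsMaximal := IsArtinianRing.isMaximal_of_isPrime P
  have hmem : x ∈ (tor P : AddSubgroup V) := by
    intro r hr
    rw [hx, Submodule.mem_colon_singleton] at hr
    exact hr
  refine ⟨tor P, P, hmax, rfl, ?_⟩
  intro hbot
  rw [hbot, AddSubgroup.mem_bot] at hmem
  apply hprime.ne_top
  rw [hx, hmem, Ideal.eq_top_iff_one, Submodule.mem_colon_singleton]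
  simp

theorem isField_of [Finite R] (φ : S →* Equiv.Perm V) (hadd : Adv φ) (hirr : Irr φ)
    (hno : ∀ F : Set (AddSubgroup V), ¬ IsSystem φ F)
    (hfaith : ∀ r : R, (∀ v : V, r • v = 0) → r = 0)
    (hc : ∀ s : S, ∃ c : R ≃+* R, ∀ (r : R) (v : V), φ s (r • v) = c r • φ s v) :
    IsField R := by
  have hzero : ∀ (s : S), φ s (0 : V) = 0 := by
    intro s
    have := hadd s 0 0
    rw [add_zero] at this
    exact (left_eq_add.1 this)
  have h0 : ∀ (s : S) (v : V), φ s v = 0 ↔ v = 0 := by
    intro s v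
    constructor
    · intro h
      apply (φ s).injective
      rw [h, hzero]
    · rintro rfl
      exact hzero s
  -- the family is permuted
  have hperm : ∀ (s : S), ∀ U ∈ fam V R, ∃ U' ∈ fam V R, ∀ v : V, φ s v ∈ U' ↔ v ∈ U := by
    rintro s U ⟨M, hM, rfl, hne⟩
    obtain ⟨c, hcs⟩ := hc s
    have hmem := tor_map (V := V) M (φ s) c hcs (h0 s)
    refine ⟨_, ⟨M.comap (c.symm : R →+* R), ?_, rfl, ?_⟩, hmem⟩
    · exact Ideal.comap_isMaximal_of_equiv c.symm
    · intro hbot
      apply hne
      rw [eq_bot_iff]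
      intro v hv
      have h1 := (hmem v).2 hv
      rw [hbot, AddSubgroup.mem_bot, h0] at h1
      exact h1
  obtain ⟨U0, hU0⟩ := fam_nonempty (V := V) (R := R) hirr.1
  -- the sum is everything
  have hinv : ∀ (s : S) (w : V), w ∈ sSup (fam V R) → φ s w ∈ sSup (fam V R) := by
    intro s w hw
    let f : V →+ V := { toFun := φ s, map_zero' := hzero s, map_add' := hadd s }
    have h1 : sSup (fam V R) ≤ (sSup (fam V R)).comap f := by
      apply sSup_le
      intro U hU v hv
      obtain ⟨U', hU', h⟩ := hperm s U hU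
      have h2 : φ s v ∈ U' := (h v).2 hv
      exact (le_sSup hU' : U' ≤ sSup (fam V R)) h2
    exact h1 hw
  have htop : sSup (fam V R) = ⊤ := by
    rcases hirr.2 (sSup (fam V R)) hinv with h | h
    · exfalso
      obtain ⟨M, hM, rfl, hne⟩ := id hU0
      apply hne
      rw [eq_bot_iff, ← h]
      exact le_sSup hU0
    · exact h
  -- so there is only one member
  have hsub : (fam V R).Subsingleton := by
    rw [← Set.not_nontrivial_iff]
    intro hnt
    exact hno (fam V R) ⟨hnt, fun U hU => by obtain ⟨_, _, _, h⟩ := hU; exact h, hperm, fam_indep,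
      htop⟩
  have hU0top : U0 = ⊤ := by
    rw [eq_top_iff, ← htop]
    apply sSup_le
    intro U hU
    rw [hsub hU hU0]
  obtain ⟨M, hM, rfl, hne⟩ := hU0
  have hMbot : M = ⊥ := by
    rw [eq_bot_iff]
    intro r hr
    rw [Ideal.mem_bot]
    apply hfaith
    intro v
    have hv : v ∈ (tor M : AddSubgroup V) := by rw [hU0top]; trivial
    exact hv r hr
  subst hMbot
  obtain ⟨v, hv⟩ := hirr.1
  have hnt : Nontrivial R := by
    by_contra hcon
    rw [not_nontrivial_iff_subsingleton] at hcon
    apply hv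
    rw [← one_smul R v, Subsingleton.elim (1 : R) 0, zero_smul]
  exact Ring.isField_iff_maximal_bot.2 hM

end General

section Main

variable {V S : Type} [AddCommGroup V] [Group S]

/-- The additive endomorphism of `s`. -/
def toEnd (φ : S →* Equiv.Perm V) (hadd : Adv φ) : S →* AddMonoid.End V where
  toFun s := { toFun := φ s
               map_zero' := by
                 have := hadd s 0 0
                 rw [add_zero] at this
                 exact left_eq_add.1 this
               map_add' := hadd s }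
  map_one' := by
    ext v
    change φ 1 v = v
    rw [map_one, Equiv.Perm.one_apply]
  map_mul' s t := by
    ext v
    change φ (s * t) v = φ s (φ t v)
    rw [map_mul, Equiv.Perm.mul_apply]

theorem toEnd_apply (φ : S →* Equiv.Perm V) (hadd : Adv φ) (s : S) (v : V) :
    toEnd φ hadd s v = φ s v := rfl

/-- Conjugation by `s` on the endomorphism ring. -/
def conj (φ : S →* Equiv.Perm V) (hadd : Adv φ) (s : S) : AddMonoid.End V →+* AddMonoid.End V where
  toFun r := toEnd φ hadd s * r * toEnd φ hadd s⁻¹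
  map_one' := by rw [mul_one, ← map_mul, mul_inv_cancel, map_one]
  map_mul' a b := by
    have h : toEnd φ hadd s⁻¹ * toEnd φ hadd s = 1 := by rw [← map_mul, inv_mul_cancel, map_one]
    calc toEnd φ hadd s * (a * b) * toEnd φ hadd s⁻¹
        = toEnd φ hadd s * a * 1 * b * toEnd φ hadd s⁻¹ := by simp only [mul_assoc, one_mul]
      _ = toEnd φ hadd s * a * (toEnd φ hadd s⁻¹ * toEnd φ hadd s) * b * toEnd φ hadd s⁻¹ := by
          rw [h]
      _ = _ := by simp only [mul_assoc]
  map_zero' := by simp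
  map_add' a b := by rw [mul_add, add_mul]

theorem conj_apply (φ : S →* Equiv.Perm V) (hadd : Adv φ) (s : S) (r : AddMonoid.End V) :
    conj φ hadd s r = toEnd φ hadd s * r * toEnd φ hadd s⁻¹ := rfl

theorem conj_mul (φ : S →* Equiv.Perm V) (hadd : Adv φ) (s t : S) (r : AddMonoid.End V) :
    conj φ hadd (s * t) r = conj φ hadd s (conj φ hadd t r) := by
  rw [conj_apply, conj_apply, conj_apply, mul_inv_rev]
  rw [map_mul (toEnd φ hadd) s t, map_mul (toEnd φ hadd) t⁻¹ s⁻¹]
  simp only [mul_assoc]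

theorem conj_one (φ : S →* Equiv.Perm V) (hadd : Adv φ) (r : AddMonoid.End V) :
    conj φ hadd 1 r = r := by
  simp only [conj_apply, map_one, inv_one, one_mul, mul_one]

/-- The ring generated by `A`. -/
def ringOf (φ : S →* Equiv.Perm V) (hadd : Adv φ) (A : Subgroup S) : Subring (AddMonoid.End V) :=
  Subring.closure (toEnd φ hadd '' (A : Set S))

theorem conj_mem (φ : S →* Equiv.Perm V) (hadd : Adv φ) (A : Subgroup S) [hA : A.Normal] (s : S)
    (r : AddMonoid.End V) (hr : r ∈ ringOf φ hadd A) : conj φ hadd s r ∈ ringOf φ hadd A := by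
  have h : ringOf φ hadd A ≤ (ringOf φ hadd A).comap (conj φ hadd s) := by
    apply Subring.closure_le.2
    rintro _ ⟨a, ha, rfl⟩
    rw [SetLike.mem_coe, Subring.mem_comap, conj_apply, ← map_mul, ← map_mul]
    exact Subring.subset_closure ⟨s * a * s⁻¹, hA.conj_mem a ha s, rfl⟩
  exact h hr

/-- Conjugation by `s` as an automorphism of the ring generated by `A`. -/
def conjAut (φ : S →* Equiv.Perm V) (hadd : Adv φ) (A : Subgroup S) [hA : A.Normal] (s : S) :
    ringOf φ hadd A ≃+* ringOf φ hadd A where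
  toFun r := ⟨conj φ hadd s r, conj_mem φ hadd A s r r.2⟩
  invFun r := ⟨conj φ hadd s⁻¹ r, conj_mem φ hadd A s⁻¹ r r.2⟩
  left_inv r := by
    apply Subtype.ext
    change conj φ hadd s⁻¹ (conj φ hadd s r) = r
    rw [← conj_mul, inv_mul_cancel, conj_one]
  right_inv r := by
    apply Subtype.ext
    change conj φ hadd s (conj φ hadd s⁻¹ r) = r
    rw [← conj_mul, mul_inv_cancel, conj_one]
  map_mul' a b := Subtype.ext (map_mul (conj φ hadd s) (a : AddMonoid.End V) b)
  map_add' a b := Subtype.ext (map_add (conj φ hadd s) (a : AddMonoid.End V) b)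

theorem conjAut_spec (φ : S →* Equiv.Perm V) (hadd : Adv φ) (A : Subgroup S) [hA : A.Normal]
    (s : S) (r : ringOf φ hadd A) (v : V) :
    φ s ((r : AddMonoid.End V) v) =
      ((conjAut φ hadd A s r : ringOf φ hadd A) : AddMonoid.End V) (φ s v) := by
  change φ s ((r : AddMonoid.End V) v) =
    φ s ((r : AddMonoid.End V) (φ s⁻¹ (φ s v)))
  rw [← Equiv.Perm.mul_apply, ← map_mul, inv_mul_cancel, map_one, Equiv.Perm.one_apply]

end Main

end Fld

open scoped IsMulCommutative in
/-- If there is no system of imprimitivity then a normal abelian subgroup acts by scalars of a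
finite field on which the whole group acts. -/
theorem field_of_normal {V S : Type} [AddCommGroup V] [Finite V] [Group S] [Finite S]
    (φ : S →* Equiv.Perm V) (hadd : Adv φ) (hirr : Irr φ)
    (hno : ∀ F : Set (AddSubgroup V), ¬ IsSystem φ F) (A : Subgroup S) [A.Normal]
    (hA : ∀ x ∈ A, ∀ y ∈ A, x * y = y * x) :
    ∃ (L : Type) (_ : Field L) (_ : Finite L) (_ : Module L V) (σ : S →* (L ≃+* L)),
      (∀ (s : S) (l : L) (v : V), φ s (l • v) = σ s l • φ s v) ∧
      (∀ a ∈ A, ∃ l : L, ∀ v : V, φ a v = l • v) ∧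
      (∀ s : S, (∀ a ∈ A, s * a = a * s) → ∀ (l : L) (v : V), φ s (l • v) = l • φ s v) := by
  have hcomm : IsMulCommutative (Fld.ringOf φ hadd A) := by
    apply Subring.isMulCommutative_closure
    rintro _ ⟨a, ha, rfl⟩ _ ⟨b, hb, rfl⟩
    rw [← map_mul, ← map_mul, hA a ha b hb]
  have hfin : Finite (AddMonoid.End V) := DFunLike.finite _
  have hfin2 : Finite (Fld.ringOf φ hadd A) := inferInstance
  have hspec := Fld.conjAut_spec φ hadd A
  have hfield : IsField (Fld.ringOf φ hadd A) := by
    apply Fld.isField_of φ hadd hirr hno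
    · intro r hr
      apply Subtype.ext
      ext v
      exact hr v
    · intro s
      exact ⟨Fld.conjAut φ hadd A s, fun r v => hspec s r v⟩
  let σ : S →* (Fld.ringOf φ hadd A ≃+* Fld.ringOf φ hadd A) :=
    { toFun := Fld.conjAut φ hadd A
      map_one' := by
        ext r : 1
        exact Subtype.ext (Fld.conj_one φ hadd r)
      map_mul' := by
        intro s t
        ext r : 1
        exact Subtype.ext (Fld.conj_mul φ hadd s t r) }
  refine ⟨Fld.ringOf φ hadd A, hfield.toField, hfin2, inferInstance, σ, ?_, ?_, ?_⟩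
  · intro s l v
    exact hspec s l v
  · intro a ha
    exact ⟨⟨Fld.toEnd φ hadd a, Subring.subset_closure ⟨a, ha, rfl⟩⟩, fun v => rfl⟩
  · intro s hs l v
    have h1 : Fld.ringOf φ hadd A ≤ Subring.centralizer {Fld.toEnd φ hadd s} := by
      apply Subring.closure_le.2
      rintro _ ⟨a, ha, rfl⟩
      rw [SetLike.mem_coe, Subring.mem_centralizer_iff]
      rintro _ rfl
      rw [← map_mul, ← map_mul, hs a ha]
    have h2 := Subring.mem_centralizer_iff.1 (h1 l.2) (Fld.toEnd φ hadd s) rfl
    exact DFunLike.congr_fun h2 v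

end EPPA
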