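import Pool.Agent.Lib.MP_4e105e_co.Defs

/-!
Module TOUR: transitive subtournaments, and realisations coming from a tournament.
-/

set_option autoImplicit false

namespace EPPA

open Finset

namespace Tour

theorem erdos_moser_aux {V : Type} [DecidableEq V] (R : V → V → Prop)
    (h2 : ∀ x y, x ≠ y → (R x y ↔ ¬ R y x)) :
    ∀ (n : ℕ) (s : Finset V), 2 ^ n ≤ s.card →
      ∃ c : Fin (n + 1) → V, (∀ i, c i ∈ s) ∧ ∀ i j, i < j → R (c i) (c j) := by
  classical
  intro n
  induction n with
  | zero =>
    intro s hs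
    obtain ⟨v, hv⟩ : s.Nonempty := Finset.card_pos.1 (by simpa using hs)
    refine ⟨fun _ => v, fun _ => hv, ?_⟩
    intro i j hij
    have h6 := i.2
    have h7 := j.2
    rw [Fin.lt_def] at hij
    omega
  | succ n ih =>
    intro s hs
    obtain ⟨v, hv⟩ : s.Nonempty :=
      Finset.card_pos.1 (lt_of_lt_of_le (by positivity) hs)
    have h3 := Finset.card_filter_add_card_filter_not (s := s.erase v) (fun x => R v x)
    rw [Finset.card_erase_of_mem hv] at h3
    have h4 : 2 ^ (n + 1) = 2 ^ n + 2 ^ n := by ring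
    have h5 : 2 ^ n ≤ ((s.erase v).filter fun x => R v x).card ∨
        2 ^ n ≤ ((s.erase v).filter fun x => ¬ R v x).card := by
      by_contra hcon
      push Not at hcon
      omega
    rcases h5 with h5 | h5
    · obtain ⟨c, hc1, hc2⟩ := ih _ h5
      refine ⟨Fin.cons v c, ?_, ?_⟩
      · intro i
        refine Fin.cases ?_ (fun i => ?_) i
        · simpa using hv
        · have := hc1 i
          rw [Finset.mem_filter, Finset.mem_erase] at this
          simpa using this.1.2
      · intro i j hij
        revert hij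
        refine Fin.cases ?_ (fun i => ?_) i
        · refine Fin.cases ?_ (fun j => ?_) j
          · intro h
            exact absurd h (lt_irrefl _)
          · intro _
            simpa using (Finset.mem_filter.1 (hc1 j)).2
        · refine Fin.cases ?_ (fun j => ?_) j
          · intro h
            exact absurd h (by simp)
          · intro h
            simpa using hc2 i j (by simpa using h)
    · obtain ⟨c, hc1, hc2⟩ := ih _ h5
      have hc3 : ∀ i, R (c i) v := by
        intro i
        have := hc1 i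
        rw [Finset.mem_filter, Finset.mem_erase] at this
        exact (h2 (c i) v this.1.1).2 this.2
      refine ⟨Fin.snoc c v, ?_, ?_⟩
      · intro i
        refine Fin.lastCases ?_ (fun i => ?_) i
        · simpa using hv
        · have := hc1 i
          rw [Finset.mem_filter, Finset.mem_erase] at this
          simpa using this.1.2
      · intro i j hij
        revert hij
        refine Fin.lastCases ?_ (fun j => ?_) j
        · refine Fin.lastCases ?_ (fun i => ?_) i
          · intro h
            exact absurd h (lt_irrefl _)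
          · intro _
            simpa using hc3 i
        · refine Fin.lastCases ?_ (fun i => ?_) i
          · intro h
            exact absurd h (by simp [Fin.le_last, not_lt])
          · intro h
            simpa using hc2 i j (by simpa using h)

end Tour

/-- Erdős and Moser: a tournament on at least `2 ^ (n - 1)` vertices has a transitive
subtournament of order `n`. -/
theorem erdos_moser (V : Type) [Finite V] (R : V → V → Prop) (h1 : ∀ x, ¬ R x x)
    (h2 : ∀ x y, x ≠ y → (R x y ↔ ¬ R y x)) (n : ℕ) (hn : 1 ≤ n) (hV : 2 ^ (n - 1) ≤ Nat.card V) :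
    ∃ c : Fin n → V, ∀ i j, i < j → R (c i) (c j) := by
  classical
  have : Fintype V := Fintype.ofFinite V
  obtain ⟨m, rfl⟩ : ∃ m, n = m + 1 := ⟨n - 1, by omega⟩
  rw [Nat.card_eq_fintype_card] at hV
  obtain ⟨c, -, hc⟩ := Tour.erdos_moser_aux R h2 m univ (by simpa using hV)
  exact ⟨c, hc⟩

theorem odd_of_tournament (W : Type) [Finite W] (S : W → W → Prop)
    (h2 : ∀ x y, x ≠ y → (S x y ↔ ¬ S y x)) (G : Subgroup (Equiv.Perm W))
    (hG : ∀ g ∈ G, ∀ a b, S a b ↔ S (g a) (g b)) : Odd (Nat.card G) := by
  classical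
  rw [← Nat.not_even_iff_odd]
  intro he
  obtain ⟨g, hg⟩ := exists_prime_orderOf_dvd_card' (G := G) 2 he.two_dvd
  have hg1 : g ≠ 1 := by
    intro h
    rw [h, orderOf_one] at hg
    norm_num at hg
  have hg2 : g * g = 1 := by
    have := pow_orderOf_eq_one g
    rw [hg, sq] at this
    exact this
  obtain ⟨a, ha⟩ : ∃ a, (g : Equiv.Perm W) a ≠ a := by
    by_contra hcon
    push Not at hcon
    apply hg1
    ext a
    simpa using hcon a
  have hga : (g : Equiv.Perm W) ((g : Equiv.Perm W) a) = a := by
    have h := congrArg (fun h : G => (h : Equiv.Perm W) a) hg2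
    simpa using h
  have h3 := hG g g.2 a ((g : Equiv.Perm W) a)
  rw [hga] at h3
  have h4 := h2 a ((g : Equiv.Perm W) a) (Ne.symm ha)
  tauto

theorem realises_of_tournament (V W : Type) (R : V → V → Prop) (S : W → W → Prop)
    (h1 : ∀ x, ¬ R x x) (h2 : ∀ x y, x ≠ y → (R x y ↔ ¬ R y x)) (e : V ↪ W)
    (G : Subgroup (Equiv.Perm W))
    (hext : ∀ (D : Set V) (f : D → V), Function.Injective f →
      (∀ x y : D, R x y ↔ R (f x) (f y)) → ∃ g ∈ G, ∀ x : D, g (e x) = e (f x))
    (n : ℕ) (hn : 0 < n) (c : Fin n → V) (hc : ∀ i j, i < j → R (c i) (c j)) :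
    ∃ b : ℕ → W, Realises G.subtype n b := by
  classical
  have hcR : ∀ i j, R (c i) (c j) ↔ i < j := by
    intro i j
    refine ⟨fun h => ?_, hc i j⟩
    rcases lt_trichotomy i j with h3 | h3 | h3
    · exact h3
    · subst h3
      exact absurd h (h1 _)
    · have h4 := hc j i h3
      have h5 : c i ≠ c j := by
        intro h6
        rw [h6] at h
        exact h1 _ h
      exact absurd h4 ((h2 _ _ h5).1 h)
  have hcinj : ∀ i j, c i = c j → i = j := by
    intro i j h
    rcases lt_trichotomy i j with h3 | h3 | h3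
    · have := hc i j h3
      rw [h] at this
      exact absurd this (h1 _)
    · exact h3
    · have := hc j i h3
      rw [h] at this
      exact absurd this (h1 _)
  have hb : ∀ i (hi : i < n), (fun i : ℕ => if h : i < n then e (c ⟨i, h⟩) else e (c ⟨0, hn⟩)) i
      = e (c ⟨i, hi⟩) := by
    intro i hi
    simp [hi]
  refine ⟨fun i => if h : i < n then e (c ⟨i, h⟩) else e (c ⟨0, hn⟩), ?_, ?_⟩
  · intro i j hi hj hij
    rw [hb i hi, hb j hj] at hij
    have := hcinj _ _ (e.injective hij)
    simpa using this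
  · intro D f hD hf
    have hch : ∀ x : (c '' {i : Fin n | (i : ℕ) ∈ D}), ∃ i : Fin n, (i : ℕ) ∈ D ∧ c i = x := by
      rintro ⟨x, i, hi, rfl⟩
      exact ⟨i, hi, rfl⟩
    choose k hk1 hk2 using hch
    have hkc : ∀ (i : Fin n) (hi : (i : ℕ) ∈ D), k ⟨c i, ⟨i, hi, rfl⟩⟩ = i := by
      intro i hi
      exact hcinj _ _ (hk2 ⟨c i, ⟨i, hi, rfl⟩⟩)
    obtain ⟨g, hg, hg2⟩ := hext (c '' {i : Fin n | (i : ℕ) ∈ D})
      (fun x => c ⟨f (k x), (hD _ (hk1 x)).2⟩) (by
        intro x y hxy
        have h3 := hcinj _ _ hxy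
        simp only [Fin.mk.injEq] at h3
        have h4 := hf.injOn (hk1 x) (hk1 y) h3
        have h5 : k x = k y := Fin.ext h4
        apply Subtype.ext
        rw [← hk2 x, ← hk2 y, h5]) (by
        intro x y
        rw [hcR, ← hk2 x, ← hk2 y, hcR]
        simp only [Fin.mk_lt_mk]
        rw [Fin.lt_def]
        exact (hf.lt_iff_lt (hk1 x) (hk1 y)).symm)
    refine ⟨⟨g, hg⟩, ?_⟩
    intro x hx
    rw [hb x (hD x hx).1, hb (f x) (hD x hx).2]
    have h6 := hg2 ⟨c ⟨x, (hD x hx).1⟩, ⟨⟨x, (hD x hx).1⟩, hx, rfl⟩⟩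
    simp only [hkc ⟨x, (hD x hx).1⟩ hx] at h6
    exact h6

end EPPA
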