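import Pool.Agent.Lib.MP_4e105e_co.Defs

/-!
Module GAL: automorphisms of finite fields; numerical lemmas.
-/

set_option autoImplicit false

namespace EPPA

theorem Gal.card_ringAut (L : Type) [Field L] [Finite L] (p : ℕ) [Fact p.Prime] [CharP L p]
    [Algebra (ZMod p) L] : Nat.card (L ≃+* L) = Module.finrank (ZMod p) L := by
  have e : (L ≃+* L) ≃ (L ≃ₐ[ZMod p] L) :=
    { toFun := fun f => AlgEquiv.ofRingEquiv (f := f) (fun x => by
        have : (f : L →+* L).comp (algebraMap (ZMod p) L) = algebraMap (ZMod p) L :=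
          RingHom.ext_zmod _ _
        exact congrArg (fun g : ZMod p →+* L => g x) this)
      invFun := fun f => f.toRingEquiv
      left_inv := fun f => by ext x; rfl
      right_inv := fun f => by ext x; rfl }
  rw [Nat.card_congr e]
  exact IsGalois.card_aut_eq_finrank (ZMod p) L

theorem Gal.three_mul_le (f : ℕ) (hf : 1 ≤ f) : 3 * f ≤ 3 ^ f := by
  induction f, hf using Nat.le_induction with
  | base => norm_num
  | succ n hn ih => rw [pow_succ]; omega

theorem galb (L : Type) [Field L] [Finite L] (hodd : Odd (Nat.card L)) :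
    3 * Nat.card (L ≃+* L) ≤ Nat.card L := by
  obtain ⟨p, hp⟩ := CharP.exists L
  have : Fact p.Prime := ⟨CharP.char_is_prime L p⟩
  let _ : Algebra (ZMod p) L := ZMod.algebra L p
  rw [Gal.card_ringAut L p]
  have hcard : Nat.card L = p ^ Module.finrank (ZMod p) L := by
    have := Module.natCard_eq_pow_finrank (K := ZMod p) (V := L)
    rwa [Nat.card_zmod] at this
  have hf : 1 ≤ Module.finrank (ZMod p) L := Module.finrank_pos
  have hp3 : 3 ≤ p := by
    have h2 := (Fact.out : p.Prime).two_le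
    have hne : p ≠ 2 := by
      rintro rfl
      rw [hcard] at hodd
      exact absurd hodd (Nat.not_odd_iff_even.2 (Nat.even_pow.2 ⟨even_two, by omega⟩))
    omega
  rw [hcard]
  calc 3 * Module.finrank (ZMod p) L ≤ 3 ^ Module.finrank (ZMod p) L := Gal.three_mul_le _ hf
    _ ≤ p ^ Module.finrank (ZMod p) L := Nat.pow_le_pow_left hp3 _

theorem cube_le (n : ℕ) (hn : 3 ≤ n) : n ^ 3 ≤ 3 ^ n := by
  induction n, hn using Nat.le_induction with
  | base => norm_num
  | succ n hn ih =>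
    rw [pow_succ 3 n]
    nlinarith [mul_le_mul hn hn (by norm_num) (by omega), mul_self_nonneg n]

theorem Gal.four_sq_le (k : ℕ) (hk : 3 ≤ k) : 4 * (k + 1) ^ 2 + 3 ≤ 3 ^ (k + 1) := by
  induction k, hk using Nat.le_induction with
  | base => norm_num
  | succ n hn ih =>
    rw [pow_succ 3 (n + 1)]
    nlinarith

theorem Gal.num_small (m g : ℕ) (hm : 2 ≤ m) (hm' : m < 27) (hg : 3 ^ g ≤ m ^ 2) :
    m ^ (g + 1) ≤ 7 ^ (m - 1) := by
  have hg6 : g < 6 := by
    by_contra h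
    have h1 : 3 ^ 6 ≤ 3 ^ g := Nat.pow_le_pow_right (by norm_num) (by omega)
    have h2 : m ^ 2 ≤ 26 ^ 2 := Nat.pow_le_pow_left (by omega) 2
    norm_num at h1 h2
    omega
  interval_cases m <;> interval_cases g <;>
    first | (exfalso; revert hg; norm_num; done) | norm_num

theorem Gal.num_seven (m g : ℕ) (hm : 2 ≤ m) (hg : 3 ^ g ≤ m ^ 2) :
    m ^ (g + 1) ≤ 7 ^ (m - 1) := by
  by_cases hm' : m < 27
  · exact Gal.num_small m g hm hm' hg
  · have hm27 : 27 ≤ m := by omega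
    obtain ⟨k, hk⟩ : ∃ k, k = Nat.log 3 m := ⟨_, rfl⟩
    have h1 : 3 ^ k ≤ m := by rw [hk]; exact Nat.pow_log_le_self 3 (by omega)
    have h2 : m < 3 ^ (k + 1) := by rw [hk]; exact Nat.lt_pow_succ_log_self (by norm_num) m
    have hk3 : 3 ≤ k := by
      by_contra h
      have : 3 ^ (k + 1) ≤ 3 ^ 3 := Nat.pow_le_pow_right (by norm_num) (by omega)
      norm_num at this
      omega
    have hg2 : g + 1 ≤ 2 * (k + 1) := by
      have h3 : 3 ^ g < 3 ^ (2 * (k + 1)) := by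
        calc 3 ^ g ≤ m ^ 2 := hg
          _ < (3 ^ (k + 1)) ^ 2 := Nat.pow_lt_pow_left h2 (by norm_num)
          _ = 3 ^ (2 * (k + 1)) := by rw [← pow_mul]; congr 1; ring
      have := (Nat.pow_lt_pow_iff_right (a := 3) (by norm_num)).1 h3
      omega
    have hodd : Odd (3 ^ k) := Odd.pow (by decide)
    obtain ⟨j, hj⟩ := hodd
    have h4 := Gal.four_sq_le k hk3
    have h5 : 2 * (k + 1) ^ 2 ≤ 3 * j := by
      rw [pow_succ 3 k, hj] at h4
      omega
    calc m ^ (g + 1) ≤ (3 ^ (k + 1)) ^ (g + 1) := Nat.pow_le_pow_left h2.le _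
      _ ≤ (3 ^ (k + 1)) ^ (2 * (k + 1)) := Nat.pow_le_pow_right (by positivity) hg2
      _ = 3 ^ (2 * (k + 1) ^ 2) := by rw [← pow_mul]; congr 1; ring
      _ ≤ 3 ^ (3 * j) := Nat.pow_le_pow_right (by norm_num) h5
      _ = 27 ^ j := by rw [pow_mul]; norm_num
      _ ≤ 49 ^ j := Nat.pow_le_pow_left (by norm_num) _
      _ = 7 ^ (2 * j) := by rw [pow_mul]; norm_num
      _ ≤ 7 ^ (m - 1) := Nat.pow_le_pow_right (by norm_num) (by omega)

theorem num (Λ m g : ℕ) (hΛ : 7 ≤ Λ) (hm : 2 ≤ m) (hg : 3 ^ g ≤ m ^ 2) :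
    (m ^ 2) ^ (g + 1) ≤ Λ ^ (2 * m - 2) := by
  have h := Gal.num_seven m g hm hg
  calc (m ^ 2) ^ (g + 1) = (m ^ (g + 1)) ^ 2 := by rw [← pow_mul, ← pow_mul]; congr 1; ring
    _ ≤ (7 ^ (m - 1)) ^ 2 := Nat.pow_le_pow_left h 2
    _ = 7 ^ (2 * m - 2) := by rw [← pow_mul]; congr 1; omega
    _ ≤ Λ ^ (2 * m - 2) := Nat.pow_le_pow_left hΛ _

end EPPA
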