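import Mathlib

/-!
Maximal abelian normal subgroups of finite solvable groups (module GRP).
-/

set_option autoImplicit false

namespace EPPA

open scoped commutatorElement

namespace GRP

/-- A nontrivial normal subgroup of a finite solvable group contains a nontrivial abelian
subgroup which is normal in the whole group. -/
lemma exists_abelian {H : Type} [Group H] [Finite H] [Group.IsSolvable H] :
    ∀ (k : ℕ) (M : Subgroup H), M.Normal → M ≠ ⊥ → Nat.card M ≤ k →
      ∃ E : Subgroup H, E.Normal ∧ E ≤ M ∧ E ≠ ⊥ ∧ ∀ x ∈ E, ∀ y ∈ E, x * y = y * x := by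
  intro k
  induction k with
  | zero =>
    intro M _ _ h
    have : 0 < Nat.card M := Nat.card_pos
    omega
  | succ k ih =>
    intro M hM hne hk
    by_cases hab : ∀ x ∈ M, ∀ y ∈ M, x * y = y * x
    · exact ⟨M, hM, le_rfl, hne, hab⟩
    · have hlt : ⁅M, M⁆ < M := Group.IsSolvable.commutator_lt_of_ne_bot hne
      have hn : (⁅M, M⁆ : Subgroup H).Normal := Subgroup.commutator_normal M M
      have hne' : ⁅M, M⁆ ≠ ⊥ := by
        intro h
        apply hab
        intro x hx y hy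
        have h1 : ⁅x, y⁆ ∈ ⁅M, M⁆ := Subgroup.commutator_mem_commutator hx hy
        rw [h, Subgroup.mem_bot, commutatorElement_eq_one_iff_mul_comm] at h1
        exact h1
      have hcard : Nat.card (⁅M, M⁆ : Subgroup H) < Nat.card M := by
        exact Set.Finite.card_lt_card (Set.toFinite _) hlt
      obtain ⟨E, h1, h2, h3, h4⟩ := ih ⁅M, M⁆ hn hne' (by omega)
      exact ⟨E, h1, h2.trans hlt.le, h3, h4⟩

end GRP

open GRP in
theorem grp {S : Type} [Group S] [Finite S] [Group.IsSolvable S] (A : Subgroup S) (hAn : A.Normal)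
    (hA : ∀ x ∈ A, ∀ y ∈ A, x * y = y * x)
    (hmax : ∀ B : Subgroup S, B.Normal → (∀ x ∈ B, ∀ y ∈ B, x * y = y * x) → A ≤ B → B = A) :
    ∃ N : Subgroup S, N.Normal ∧ A ≤ N ∧ (∀ n ∈ N, ∀ a ∈ A, n * a = a * n) ∧
      (∀ x ∈ N, ∀ y ∈ N, x * y * x⁻¹ * y⁻¹ ∈ A) ∧
      ∀ c : S, (∀ a ∈ A, c * a = a * c) → (∀ n ∈ N, c * n = n * c) → c ∈ A := by
  classical
  let Good : Set (Subgroup S) := {N | N.Normal ∧ A ≤ N ∧ (∀ n ∈ N, ∀ a ∈ A, n * a = a * n) ∧
      (∀ x ∈ N, ∀ y ∈ N, x * y * x⁻¹ * y⁻¹ ∈ A)}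
  have hAG : A ∈ Good := by
    refine ⟨hAn, le_rfl, hA, ?_⟩
    intro x hx y hy
    exact A.mul_mem (A.mul_mem (A.mul_mem hx hy) (A.inv_mem hx)) (A.inv_mem hy)
  obtain ⟨N, hN⟩ := (Set.toFinite Good).exists_maximal ⟨A, hAG⟩
  obtain ⟨hNn, hAN, hNA, hNc⟩ := hN.prop
  refine ⟨N, hNn, hAN, hNA, hNc, ?_⟩
  -- the centre of `N` is contained in `A`
  have hZ : ∀ z ∈ N, (∀ n ∈ N, z * n = n * z) → z ∈ A := by
    let Z : Subgroup S :=
      { carrier := {z | z ∈ N ∧ ∀ n ∈ N, z * n = n * z}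
        one_mem' := ⟨N.one_mem, fun n _ => by simp⟩
        mul_mem' := by
          rintro a b ⟨ha, ha'⟩ ⟨hb, hb'⟩
          refine ⟨N.mul_mem ha hb, fun n hn => ?_⟩
          rw [mul_assoc, hb' n hn, ← mul_assoc, ha' n hn, mul_assoc]
        inv_mem' := by
          rintro a ⟨ha, ha'⟩
          refine ⟨N.inv_mem ha, fun n hn => ?_⟩
          rw [inv_mul_eq_iff_eq_mul, ← mul_assoc, ha' n hn, mul_assoc, mul_inv_cancel, mul_one] }
    have hZn : Z.Normal := by
      constructor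
      rintro z ⟨hz, hz'⟩ g
      refine ⟨hNn.conj_mem z hz g, fun n hn => ?_⟩
      have h1 := hz' (g⁻¹ * n * g) (by simpa using hNn.conj_mem n hn g⁻¹)
      have h2 : g * z * g⁻¹ * n = g * (z * (g⁻¹ * n * g)) * g⁻¹ := by group
      rw [h2, h1]
      group
    have hZA : Z = A := by
      apply hmax Z hZn
      · rintro x ⟨_, hx⟩ y ⟨hy, _⟩
        exact hx y hy
      · intro a ha
        exact ⟨hAN ha, fun n hn => (hNA n hn a ha).symm⟩
    intro z hz hz'
    rw [← hZA]
    exact ⟨hz, hz'⟩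
  -- the centraliser `D`
  let D : Subgroup S :=
    { carrier := {z | (∀ a ∈ A, z * a = a * z) ∧ ∀ n ∈ N, z * n = n * z}
      one_mem' := ⟨fun n _ => by simp, fun n _ => by simp⟩
      mul_mem' := by
        rintro a b ⟨ha, ha'⟩ ⟨hb, hb'⟩
        refine ⟨fun n hn => ?_, fun n hn => ?_⟩
        · rw [mul_assoc, hb n hn, ← mul_assoc, ha n hn, mul_assoc]
        · rw [mul_assoc, hb' n hn, ← mul_assoc, ha' n hn, mul_assoc]
      inv_mem' := by
        rintro a ⟨ha, ha'⟩
        refine ⟨fun n hn => ?_, fun n hn => ?_⟩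
        · rw [inv_mul_eq_iff_eq_mul, ← mul_assoc, ha n hn, mul_assoc, mul_inv_cancel, mul_one]
        · rw [inv_mul_eq_iff_eq_mul, ← mul_assoc, ha' n hn, mul_assoc, mul_inv_cancel, mul_one] }
  have hDn : D.Normal := by
    constructor
    rintro z ⟨hz, hz'⟩ g
    refine ⟨fun n hn => ?_, fun n hn => ?_⟩
    · have h1 := hz (g⁻¹ * n * g) (by simpa using hAn.conj_mem n hn g⁻¹)
      have h2 : g * z * g⁻¹ * n = g * (z * (g⁻¹ * n * g)) * g⁻¹ := by group
      rw [h2, h1]
      group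
    · have h1 := hz' (g⁻¹ * n * g) (by simpa using hNn.conj_mem n hn g⁻¹)
      have h2 : g * z * g⁻¹ * n = g * (z * (g⁻¹ * n * g)) * g⁻¹ := by group
      rw [h2, h1]
      group
  have hAD : A ≤ D := fun a ha => ⟨fun b hb => hA a ha b hb, fun n hn => (hNA n hn a ha).symm⟩
  have hDA : D ≤ A := by
    by_contra hne
    have hmap : D.map (QuotientGroup.mk' A) ≠ ⊥ := by
      intro h
      apply hne
      have := (Subgroup.map_eq_bot_iff D).mp h
      rwa [QuotientGroup.ker_mk'] at this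
    have hmapn : (D.map (QuotientGroup.mk' A)).Normal :=
      hDn.map _ (QuotientGroup.mk'_surjective A)
    obtain ⟨E', hE'n, hE'D, hE'ne, hE'c⟩ := exists_abelian _ _ hmapn hmap le_rfl
    let E : Subgroup S := E'.comap (QuotientGroup.mk' A)
    have hEn : E.Normal := hE'n.comap _
    have hAE : A ≤ E := by
      intro a ha
      change QuotientGroup.mk' A a ∈ E'
      have : QuotientGroup.mk' A a = 1 := by
        rw [QuotientGroup.mk'_apply, QuotientGroup.eq_one_iff]
        exact ha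
      rw [this]
      exact E'.one_mem
    have hED : E ≤ D := by
      have h1 : E ≤ (D.map (QuotientGroup.mk' A)).comap (QuotientGroup.mk' A) :=
        Subgroup.comap_mono hE'D
      rw [Subgroup.comap_map_eq, QuotientGroup.ker_mk'] at h1
      exact h1.trans (sup_le le_rfl hAD)
    have hEc : ∀ x ∈ E, ∀ y ∈ E, x * y * x⁻¹ * y⁻¹ ∈ A := by
      intro x hx y hy
      rw [← QuotientGroup.eq_one_iff]
      have h1 := hE'c _ hx _ hy
      simp only [QuotientGroup.mk'_apply] at h1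
      rw [QuotientGroup.mk_mul, QuotientGroup.mk_mul, QuotientGroup.mk_mul, h1,
        QuotientGroup.mk_inv, QuotientGroup.mk_inv]
      group
    have hsup : N ⊔ E ∈ Good := by
      have hmem : ∀ x ∈ N ⊔ E, ∃ n ∈ N, ∃ e ∈ E, n * e = x := by
        intro x hx
        exact Subgroup.mem_sup_of_normal_right.mp hx
      refine ⟨inferInstance, hAN.trans le_sup_left, ?_, ?_⟩
      · intro x hx a ha
        obtain ⟨n, hn, e, he, rfl⟩ := hmem x hx
        rw [mul_assoc, (hED he).1 a ha, ← mul_assoc, hNA n hn a ha, mul_assoc]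
      · intro x hx y hy
        obtain ⟨n, hn, e, he, rfl⟩ := hmem x hx
        obtain ⟨m, hm, f, hf, rfl⟩ := hmem y hy
        have c1 : e * m = m * e := (hED he).2 m hm
        have c2 : f * n = n * f := (hED hf).2 n hn
        have c3 : f * m = m * f := (hED hf).2 m hm
        have c4 : e * n = n * e := (hED he).2 n hn
        have k1 := hNc n hn m hm
        have k2 := hEc e he f hf
        have key : n * e * (m * f) * (n * e)⁻¹ * (m * f)⁻¹
            = (n * m * n⁻¹ * m⁻¹) * (e * f * e⁻¹ * f⁻¹) := by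
          have d1 : ∀ z ∈ E, ∀ w ∈ N, Commute z w := fun z hz w hw => (hED hz).2 w hw
          have s1 : Commute e m := d1 e he m hm
          have s2 : Commute (e * f * e⁻¹ * f⁻¹) (n⁻¹ * m⁻¹) := by
            apply d1
            · exact E.mul_mem (E.mul_mem (E.mul_mem he hf) (E.inv_mem he)) (E.inv_mem hf)
            · exact N.mul_mem (N.inv_mem hn) (N.inv_mem hm)
          have s3 : Commute (f⁻¹) (m⁻¹) := d1 _ (E.inv_mem hf) _ (N.inv_mem hm)
          have s4 : Commute (e⁻¹) (n⁻¹) := d1 _ (E.inv_mem he) _ (N.inv_mem hn)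
          have s5 : Commute (e⁻¹ * f⁻¹) (n⁻¹ * m⁻¹) := d1 _ (E.mul_mem (E.inv_mem he) (E.inv_mem hf)) _
            (N.mul_mem (N.inv_mem hn) (N.inv_mem hm))
          have s6 : Commute (e⁻¹) (n⁻¹) := s4
          have s7 : Commute (f⁻¹) (n⁻¹ * m⁻¹) := d1 _ (E.inv_mem hf) _
            (N.mul_mem (N.inv_mem hn) (N.inv_mem hm))
          calc n * e * (m * f) * (n * e)⁻¹ * (m * f)⁻¹
              = n * (e * m) * f * (e⁻¹ * n⁻¹) * (f⁻¹ * m⁻¹) := by group
            _ = n * (m * e) * f * (n⁻¹ * e⁻¹) * (m⁻¹ * f⁻¹) := by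
                rw [s1.eq, s4.eq, s3.eq]
            _ = n * m * (e * f) * n⁻¹ * (e⁻¹ * m⁻¹) * f⁻¹ := by group
            _ = n * m * (e * f) * n⁻¹ * (m⁻¹ * e⁻¹) * f⁻¹ := by
                rw [(d1 _ (E.inv_mem he) _ (N.inv_mem hm)).eq]
            _ = n * m * ((e * f) * (n⁻¹ * m⁻¹)) * e⁻¹ * f⁻¹ := by group
            _ = n * m * ((n⁻¹ * m⁻¹) * (e * f)) * e⁻¹ * f⁻¹ := by
                rw [(d1 _ (E.mul_mem he hf) _ (N.mul_mem (N.inv_mem hn) (N.inv_mem hm))).eq]
            _ = _ := by group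
        rw [key]
        exact A.mul_mem k1 k2
    have hEN : E ≤ N := le_sup_right.trans (hN.le_of_ge hsup le_sup_left)
    have hEA : E ≤ A := by
      intro e he
      exact hZ e (hEN he) (hED he).2
    apply hE'ne
    rw [eq_bot_iff]
    intro q hq
    obtain ⟨x, rfl⟩ := QuotientGroup.mk'_surjective A q
    have hx : x ∈ E := hq
    rw [Subgroup.mem_bot, QuotientGroup.mk'_apply, QuotientGroup.eq_one_iff]
    exact hEA hx
  intro c h1 h2
  exact hDA ⟨h1, h2⟩

end EPPA
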