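import Pool.Agent.Lib.MP_4e105e_co.Defs

/-!
Module INDEP: the cosets of `A` in `N` are linearly independent.
-/

set_option autoImplicit false

namespace EPPA

/-- Characters have linearly independent values, with vector coefficients. -/
theorem Indep.vec {ι G L V : Type} [Fintype ι] [Monoid G] [Field L] [AddCommGroup V] [Module L V]
    (χ : ι → (G →* L)) (hχ : Function.Injective χ) (w : ι → V)
    (h : ∀ g : G, ∑ i, χ i g • w i = 0) (i : ι) : w i = 0 := by
  rw [← Module.forall_dual_apply_eq_zero_iff L (w i)]
  intro f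
  have hli : LinearIndependent L (fun i => (χ i : G → L)) :=
    (linearIndependent_monoidHom G L).comp χ hχ
  refine Fintype.linearIndependent_iff.1 hli (fun i => f (w i)) ?_ i
  funext g
  have := congrArg f (h g)
  simp only [map_sum, map_smul, map_zero, smul_eq_mul] at this
  simp only [Finset.sum_apply, Pi.smul_apply, smul_eq_mul, Pi.zero_apply]
  rw [← this]
  exact Finset.sum_congr rfl (fun i _ => mul_comm _ _)

theorem indep {V S L : Type} [AddCommGroup V] [Finite V] [Nontrivial V] [Group S] [Finite S]
    (φ : S →* Equiv.Perm V) (hadd : Adv φ) (hinj : Function.Injective φ) [Field L] [Finite L]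
    [Module L V] (A N : Subgroup S) (hAN : A ≤ N)
    (hcomm : ∀ x ∈ N, ∀ y ∈ N, x * y * x⁻¹ * y⁻¹ ∈ A)
    (hscal : ∀ a ∈ A, ∃ l : L, ∀ v : V, φ a v = l • v)
    (hlin : ∀ n ∈ N, ∀ (l : L) (v : V), φ n (l • v) = l • φ n v)
    (hZ : ∀ z ∈ N, (∀ n ∈ N, z * n = n * z) → z ∈ A) :
    A.relIndex N ≤ Module.finrank L V ^ 2 := by
  classical
  let T : N →* Module.End L V :=
    { toFun := fun n =>
        { toFun := fun v => φ n v
          map_add' := fun v w => hadd n v w
          map_smul' := fun l v => hlin n n.2 l v }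
      map_one' := by
        ext v
        simp
      map_mul' := fun m n => by
        ext v
        simp }
  have hT : ∀ (n : N) (v : V), T n v = φ n v := fun n v => rfl
  obtain ⟨v₀, hv₀⟩ := exists_ne (0 : V)
  have hTne : ∀ (n : N), T n v₀ ≠ 0 := by
    intro n h
    have h1 : T (n⁻¹) (T n v₀) = v₀ := by
      have : (T (n⁻¹) * T n) v₀ = v₀ := by
        rw [← map_mul, inv_mul_cancel, map_one]; rfl
      exact this
    rw [h, map_zero] at h1
    exact hv₀ h1.symm
  have huniq : ∀ (n : N) (l l' : L), l • T n = l' • T n → l = l' := by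
    intro n l l' h
    have h1 : l • T n v₀ = l' • T n v₀ := by
      have := congrArg (fun f : Module.End L V => f v₀) h
      simpa using this
    exact smul_left_injective L (hTne n) h1
  have hl : ∀ y n : N, ∃ l : L, T (y * n * y⁻¹) = l • T n := by
    intro y n
    obtain ⟨l, hl⟩ := hscal (y * n * y⁻¹ * n⁻¹) (hcomm y y.2 n n.2)
    refine ⟨l, ?_⟩
    ext v
    rw [hT, LinearMap.smul_apply, hT, ← hl, ← Equiv.Perm.mul_apply, ← map_mul]
    simp
  choose lam hlam using hl
  let χ : N → (N →* L) := fun n =>
    { toFun := fun y => lam y n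
      map_one' := by
        apply huniq n
        rw [← hlam, one_smul]
        simp
      map_mul' := fun x y => by
        apply huniq n
        rw [← hlam]
        have h1 : x * y * n * (x * y)⁻¹ = x * (y * n * y⁻¹) * x⁻¹ := by group
        rw [h1, map_mul, map_mul, hlam y n, mul_smul_comm, smul_mul_assoc, ← map_mul, ← map_mul,
          hlam x n, smul_smul, mul_comm] }
  have hχ' : ∀ n y : N, T (y * n * y⁻¹) = χ n y • T n := fun n y => hlam y n
  have hχ : ∀ n n' : N, χ n = χ n' → n⁻¹ * n' ∈ A.subgroupOf N := by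
    intro n n' h
    rw [Subgroup.mem_subgroupOf]
    apply hZ _ (n⁻¹ * n').2
    intro y hy
    have key : ∀ y : N, y * (n⁻¹ * n') * y⁻¹ = n⁻¹ * n' := by
      intro y
      have h1 := hχ' n y
      have h2 := hχ' n' y
      rw [← h] at h2
      have hne : χ n y ≠ 0 := by
        intro h0
        rw [h0, zero_smul] at h1
        exact hTne (y * n * y⁻¹) (by rw [h1]; rfl)
      have h3 : T (y * n * y⁻¹) * T (y * (n⁻¹ * n') * y⁻¹) = T (y * n' * y⁻¹) := by
        rw [← map_mul]; congr 1; group
      have h4 : T n * T (y * (n⁻¹ * n') * y⁻¹) = T n' := by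
        rw [h1, h2, smul_mul_assoc] at h3
        exact smul_right_injective (Module.End L V) hne h3
      have h5 : T (y * (n⁻¹ * n') * y⁻¹) = T (n⁻¹ * n') := by
        have : T (n⁻¹) * (T n * T (y * (n⁻¹ * n') * y⁻¹)) = T (n⁻¹) * T n' := by rw [h4]
        rw [← mul_assoc, ← map_mul, inv_mul_cancel, map_one, one_mul, ← map_mul] at this
        exact this
      have h6 : φ (y * (n⁻¹ * n') * y⁻¹ : N) = φ (n⁻¹ * n' : N) := by
        ext v
        exact congrArg (fun f : Module.End L V => f v) h5
      exact Subtype.ext (hinj h6)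
    have h7 := key ⟨y, hy⟩
    have h8 : (⟨y, hy⟩ : N) * (n⁻¹ * n') = (n⁻¹ * n') * ⟨y, hy⟩ := by
      rw [mul_inv_eq_iff_eq_mul] at h7
      exact h7
    exact (congrArg (fun z : N => (z : S)) h8).symm
  have : Fintype (N ⧸ A.subgroupOf N) := Fintype.ofFinite _
  have hli : LinearIndependent L (fun q : N ⧸ A.subgroupOf N => T q.out) := by
    rw [Fintype.linearIndependent_iff]
    intro c hc q
    have h1 : ∀ (v : V) (y : N), ∑ q, χ (Quotient.out q) y • (c q • T q.out v) = 0 := by
      intro v y
      have h2 : T y * (∑ q, c q • T q.out) * T y⁻¹ = 0 := by rw [hc]; simp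
      rw [Finset.mul_sum, Finset.sum_mul] at h2
      have h3 := congrArg (fun f : Module.End L V => f v) h2
      simp only [LinearMap.sum_apply, LinearMap.zero_apply] at h3
      rw [← h3]
      refine Finset.sum_congr rfl (fun q _ => ?_)
      rw [mul_smul_comm, smul_mul_assoc, ← map_mul, ← map_mul, hχ', LinearMap.smul_apply,
        LinearMap.smul_apply, smul_comm]
    have hinjχ : Function.Injective (fun q : N ⧸ A.subgroupOf N => χ q.out) := by
      intro q q' hqq
      have := hχ _ _ hqq
      rw [← QuotientGroup.eq, QuotientGroup.out_eq', QuotientGroup.out_eq'] at this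
      exact this
    have h4 := Indep.vec (fun q : N ⧸ A.subgroupOf N => χ q.out) hinjχ
      (fun q => c q • T q.out v₀) (h1 v₀) q
    rcases smul_eq_zero.1 h4 with h5 | h5
    · exact h5
    · exact absurd h5 (hTne _)
  have h9 := hli.fintype_card_le_finrank
  have h11 : Module.finrank L (Module.End L V) = Module.finrank L V * Module.finrank L V :=
    Module.finrank_linearMap L L V V
  rw [h11] at h9
  have h10 : A.relIndex N = Fintype.card (N ⧸ A.subgroupOf N) := by
    rw [Subgroup.relIndex, Subgroup.index, Nat.card_eq_fintype_card]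
  rw [h10, pow_two]
  exact h9

end EPPA
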