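import Pool.Agent.Lib.MP_4e105e_co.Defs

/-!
Module IRES of MP_4e105e_co: the action of the stabiliser of a block on the block is irreducible.
-/

set_option autoImplicit false

namespace EPPA

theorem irr_res {V S : Type} [AddCommGroup V] [Finite V] [Group S] (φ : S →* Equiv.Perm V)
    (hadd : Adv φ) (hirr : Irr φ) (F : Set (AddSubgroup V)) (hF : IsSystem φ F)
    (U : AddSubgroup V) (hU : U ∈ F) (W : AddSubgroup V) (hWU : W ≤ U)
    (hW : ∀ s : S, (∀ v : V, φ s v ∈ U ↔ v ∈ U) → ∀ w ∈ W, φ s w ∈ W) : W = ⊥ ∨ W = U := by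
  obtain ⟨-, -, hperm, hind, -⟩ := hF
  have hzero : ∀ (s : S), φ s (0 : V) = 0 := by
    intro s
    have := hadd s 0 0
    rw [add_zero] at this
    exact (left_eq_add.1 this)
  let T : AddSubgroup V := AddSubgroup.closure {x | ∃ (s : S) (w : V), w ∈ W ∧ x = φ s w}
  have hWT : W ≤ T := by
    intro w hw
    apply AddSubgroup.subset_closure
    exact ⟨1, w, hw, by rw [map_one, Equiv.Perm.one_apply]⟩
  have hTinv : ∀ (s : S) (w : V), w ∈ T → φ s w ∈ T := by
    intro s w hw
    let f : V →+ V := { toFun := φ s, map_zero' := hzero s, map_add' := hadd s }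
    have h1 : T ≤ T.comap f := by
      apply (AddSubgroup.closure_le _).2
      rintro x ⟨t, w, hw, rfl⟩
      apply AddSubgroup.subset_closure
      refine ⟨s * t, w, hw, ?_⟩
      rw [map_mul, Equiv.Perm.mul_apply]
      rfl
    exact h1 hw
  rcases hirr.2 T hTinv with h | h
  · left
    rw [eq_bot_iff, ← h]
    exact hWT
  · right
    let Y : AddSubgroup V := sSup (F \ {U})
    have hdis : U ⊓ Y = ⊥ := disjoint_iff.1 (hind hU)
    have hTY : T ≤ W ⊔ Y := by
      apply (AddSubgroup.closure_le _).2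
      rintro x ⟨s, w, hw, rfl⟩
      obtain ⟨U', hU', hs⟩ := hperm s U hU
      by_cases hUU : U' = U
      · subst hUU
        exact (le_sup_left : W ≤ W ⊔ Y) (hW s hs w hw)
      · have h1 : U' ≤ W ⊔ Y := (le_sSup (show U' ∈ F \ {U} from ⟨hU', hUU⟩)).trans le_sup_right
        exact h1 ((hs w).2 (hWU hw))
    have hmod : (W ⊔ Y) ⊓ U = W ⊔ Y ⊓ U := sup_inf_assoc_of_le Y hWU
    rw [h, top_le_iff] at hTY
    rw [hTY, top_inf_eq, inf_comm, hdis, sup_bot_eq] at hmod
    exact hmod.symm

end EPPA
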