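import Pool.Agent.Lib.MP_4e105e_co.Defs
import Pool.Agent.Lib.MP_4e105e_co.CardSys
import Pool.Agent.Lib.MP_4e105e_co.IrrRes
import Pool.Agent.Lib.MP_4e105e_co.Prod

/-!
Module IIMP of MP_4e105e_co: imprimitive linear groups.
-/

set_option autoImplicit false

namespace EPPA

namespace Iimp

variable {V S : Type} [AddCommGroup V] [Group S]

/-- The image of a subgroup. -/
def img (φ : S →* Equiv.Perm V) (hadd : Adv φ) (s : S) (U : AddSubgroup V) : AddSubgroup V where
  carrier := {x | φ s⁻¹ x ∈ U}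
  zero_mem' := by
    have := hadd s⁻¹ 0 0
    rw [add_zero] at this
    have h := left_eq_add.1 this
    change φ s⁻¹ 0 ∈ U
    rw [h]
    exact U.zero_mem
  add_mem' := by
    intro a b ha hb
    change φ s⁻¹ (a + b) ∈ U
    rw [hadd]
    exact U.add_mem ha hb
  neg_mem' := by
    intro a ha
    change φ s⁻¹ (-a) ∈ U
    have h0 := hadd s⁻¹ 0 0
    rw [add_zero] at h0
    have h := left_eq_add.1 h0
    have h1 := hadd s⁻¹ (-a) a
    rw [neg_add_cancel, h] at h1
    rw [eq_neg_of_add_eq_zero_left h1.symm]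
    exact U.neg_mem ha

theorem mem_img {φ : S →* Equiv.Perm V} {hadd : Adv φ} {s : S} {U : AddSubgroup V} {x : V} :
    x ∈ img φ hadd s U ↔ φ s⁻¹ x ∈ U := Iff.rfl

theorem apply_mem_img {φ : S →* Equiv.Perm V} {hadd : Adv φ} {s : S} {U : AddSubgroup V} {x : V} :
    φ s x ∈ img φ hadd s U ↔ x ∈ U := by
  rw [mem_img, ← Equiv.Perm.mul_apply, ← map_mul, inv_mul_cancel, map_one, Equiv.Perm.one_apply]

theorem img_one (φ : S →* Equiv.Perm V) (hadd : Adv φ) (U : AddSubgroup V) :
    img φ hadd 1 U = U := by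
  ext x
  rw [mem_img, inv_one, map_one, Equiv.Perm.one_apply]

theorem img_mul (φ : S →* Equiv.Perm V) (hadd : Adv φ) (s t : S) (U : AddSubgroup V) :
    img φ hadd (s * t) U = img φ hadd s (img φ hadd t U) := by
  ext x
  rw [mem_img, mem_img, mem_img, mul_inv_rev, map_mul, Equiv.Perm.mul_apply]

theorem img_eq_of (φ : S →* Equiv.Perm V) (hadd : Adv φ) (s : S) (U U' : AddSubgroup V)
    (h : ∀ v : V, φ s v ∈ U' ↔ v ∈ U) : img φ hadd s U = U' := by
  ext x
  rw [mem_img, ← h, ← Equiv.Perm.mul_apply, ← map_mul, mul_inv_cancel, map_one,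
    Equiv.Perm.one_apply]

theorem img_eq_iff (φ : S →* Equiv.Perm V) (hadd : Adv φ) (s : S) (U : AddSubgroup V) :
    img φ hadd s U = U ↔ ∀ v : V, φ s v ∈ U ↔ v ∈ U := by
  constructor
  · intro h v
    have h1 := apply_mem_img (φ := φ) (hadd := hadd) (s := s) (U := U) (x := v)
    rw [h] at h1
    exact h1
  · exact img_eq_of φ hadd s U U

/-- The permutation of the system. -/
def perm (φ : S →* Equiv.Perm V) (hadd : Adv φ) (F : Set (AddSubgroup V))
    (hF : ∀ (s : S), ∀ U ∈ F, img φ hadd s U ∈ F) : S →* Equiv.Perm F where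
  toFun s :=
    { toFun := fun U => ⟨img φ hadd s U, hF s U U.2⟩
      invFun := fun U => ⟨img φ hadd s⁻¹ U, hF s⁻¹ U U.2⟩
      left_inv := by
        intro U
        apply Subtype.ext
        change img φ hadd s⁻¹ (img φ hadd s U) = U
        rw [← img_mul, inv_mul_cancel, img_one]
      right_inv := by
        intro U
        apply Subtype.ext
        change img φ hadd s (img φ hadd s⁻¹ U) = U
        rw [← img_mul, mul_inv_cancel, img_one] }
  map_one' := by
    ext U : 1
    exact Subtype.ext (img_one φ hadd U)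
  map_mul' s t := by
    ext U : 1
    exact Subtype.ext (img_mul φ hadd s t U)

theorem perm_apply (φ : S →* Equiv.Perm V) (hadd : Adv φ) (F : Set (AddSubgroup V))
    (hF : ∀ (s : S), ∀ U ∈ F, img φ hadd s U ∈ F) (s : S) (U : F) :
    ((perm φ hadd F hF s U : F) : AddSubgroup V) = img φ hadd s U := rfl

/-- The stabiliser of `U`. -/
def stab (φ : S →* Equiv.Perm V) (hadd : Adv φ) (U : AddSubgroup V) : Subgroup S where
  carrier := {s | img φ hadd s U = U}
  one_mem' := img_one φ hadd U
  mul_mem' := by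
    intro a b ha hb
    change img φ hadd (a * b) U = U
    rw [img_mul]
    have ha' : img φ hadd a U = U := ha
    have hb' : img φ hadd b U = U := hb
    rw [hb', ha']
  inv_mem' := by
    intro a ha
    have ha' : img φ hadd a U = U := ha
    change img φ hadd a⁻¹ U = U
    have h := img_mul φ hadd a⁻¹ a U
    rw [inv_mul_cancel, img_one, ha'] at h
    exact h.symm

theorem mem_stab {φ : S →* Equiv.Perm V} {hadd : Adv φ} {U : AddSubgroup V} {s : S} :
    s ∈ stab φ hadd U ↔ ∀ v : V, φ s v ∈ U ↔ v ∈ U := img_eq_iff φ hadd s U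

/-- A group of permutations preserving `U` acts on `U`. -/
def restr {V : Type} [AddCommGroup V] {T : Type} [Group T] (φ : T →* Equiv.Perm V)
    (U : AddSubgroup V)
    (h : ∀ (s : T) (v : V), φ s v ∈ U ↔ v ∈ U) : T →* Equiv.Perm U where
  toFun s := (φ s).subtypePerm (p := fun v => v ∈ U) (h s)
  map_one' := by
    ext x
    change φ 1 x = x
    rw [map_one, Equiv.Perm.one_apply]
  map_mul' s t := by
    ext x
    change φ (s * t) x = φ s (φ t x)
    rw [map_mul, Equiv.Perm.mul_apply]

theorem restr_apply {V : Type} [AddCommGroup V] {T : Type} [Group T] (φ : T →* Equiv.Perm V)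
    (U : AddSubgroup V) (h : ∀ (s : T) (v : V), φ s v ∈ U ↔ v ∈ U) (s : T) (u : U) :
    ((restr φ U h s u : U) : V) = φ s u := rfl

/-- The action of the stabiliser of `U` on `U`. -/
def stabAct (φ : S →* Equiv.Perm V) (hadd : Adv φ) (U : AddSubgroup V) :
    stab φ hadd U →* Equiv.Perm U :=
  restr (φ.comp (stab φ hadd U).subtype) U
    (fun s => (mem_stab (φ := φ) (hadd := hadd) (U := U) (s := (s : S))).1 s.2)

theorem stabAct_apply (φ : S →* Equiv.Perm V) (hadd : Adv φ) (U : AddSubgroup V)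
    (s : stab φ hadd U) (u : U) : ((stabAct φ hadd U s u : U) : V) = φ s u := rfl

/-- The bound for a block. -/
theorem block {V S : Type} [AddCommGroup V] [Finite V] [Group S] [Finite S] [Group.IsSolvable S]
    (φ : S →* Equiv.Perm V) (hadd : Adv φ) (hirr : Irr φ)
    (F : Set (AddSubgroup V)) (hF : IsSystem φ F) (hodd : Odd (Nat.card S))
    (U : AddSubgroup V) (hU : U ∈ F) (hUodd : Odd (Nat.card U)) (hI : IrrB (Nat.card U)) :
    3 * Nat.card (stabAct φ hadd U).range ≤ Nat.card U ^ 2 := by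
  have hadd' : Adv (stabAct φ hadd U) := by
    intro s v w
    apply Subtype.ext
    exact hadd s v w
  have hirr' : Irr (stabAct φ hadd U) := by
    constructor
    · obtain ⟨v, hv⟩ := (AddSubgroup.ne_bot_iff_exists_ne_zero (H := U)).1 (hF.2.1 U hU)
      exact ⟨v, hv⟩
    · intro W hW
      have h1 := irr_res φ hadd hirr F hF U hU (W.map U.subtype) (by
        rintro _ ⟨w, -, rfl⟩
        exact w.2) (by
        rintro s hs _ ⟨w, hw, rfl⟩
        exact ⟨_, hW ⟨s, mem_stab.2 hs⟩ w hw, rfl⟩)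
      rcases h1 with h | h
      · left
        rw [AddSubgroup.map_eq_bot_iff_of_injective _ U.subtype_injective] at h
        exact h
      · right
        rw [eq_top_iff]
        intro u _
        have h2 : (u : V) ∈ W.map U.subtype := by
          rw [h]
          exact u.2
        obtain ⟨w, hw, hwu⟩ := h2
        have h3 : w = u := Subtype.ext hwu
        rw [← h3]
        exact hw
  exact hI U (stab φ hadd U) (stabAct φ hadd U) hadd' hirr' rfl hUodd
    (hodd.of_dvd_nat (Subgroup.card_subgroup_dvd_card _))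

end Iimp

theorem irr_imprim (N : ℕ) (hP : ∀ M, M < N → PermB M) (hI : ∀ M, M < N → IrrB M)
    (V S : Type) [AddCommGroup V] [Finite V] [Group S] [Finite S] [Group.IsSolvable S]
    (φ : S →* Equiv.Perm V) (hadd : Adv φ) (hirr : Irr φ) (hcard : Nat.card V = N) (hN : Odd N)
    (hodd : Odd (Nat.card S)) (F : Set (AddSubgroup V)) (hF : IsSystem φ F) :
    3 * Nat.card φ.range ≤ N ^ 2 := by
  classical
  obtain ⟨hnt, hne, hperm, hind, htop⟩ := id hF
  have hmem : ∀ (s : S), ∀ U ∈ F, Iimp.img φ hadd s U ∈ F := by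
    intro s U hU
    obtain ⟨U', hU', h⟩ := hperm s U hU
    rw [Iimp.img_eq_of φ hadd s U U' h]
    exact hU'
  have hprod : ∏ᶠ U : F, Nat.card (U : AddSubgroup V) = N :=
    (card_system F hind htop).trans hcard
  have := Fintype.ofFinite F
  rw [finprod_eq_prod_of_fintype] at hprod
  have hUodd : ∀ U : F, Odd (Nat.card (U : AddSubgroup V)) := by
    intro U
    rw [← hcard] at hN
    exact hN.of_dvd_nat (AddSubgroup.card_addSubgroup_dvd_card _)
  have hU3 : ∀ U : F, 3 ≤ Nat.card (U : AddSubgroup V) := by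
    intro U
    have h1 : 1 < Nat.card (U : AddSubgroup V) := by
      rw [Finite.one_lt_card_iff_nontrivial]
      exact (AddSubgroup.nontrivial_iff_ne_bot (U : AddSubgroup V)).2 (hne U U.2)
    obtain ⟨m, hm⟩ := hUodd U
    omega
  have hUlt : ∀ U : F, Nat.card (U : AddSubgroup V) < N := by
    intro U
    obtain ⟨U', hU'F, hU'⟩ := hnt.exists_ne (U : AddSubgroup V)
    have hne' : (⟨U', hU'F⟩ : F) ≠ U := fun h => hU' (congrArg Subtype.val h)
    have h1 : Nat.card U' * Nat.card (U : AddSubgroup V) ≤ N := by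
      calc Nat.card U' * Nat.card (U : AddSubgroup V)
          = ∏ W ∈ ({⟨U', hU'F⟩, U} : Finset F), Nat.card (W : AddSubgroup V) :=
            (Finset.prod_pair (f := fun W : F => Nat.card (W : AddSubgroup V)) hne').symm
        _ ≤ ∏ W : F, Nat.card (W : AddSubgroup V) :=
            Finset.prod_le_prod_of_subset_of_one_le' (Finset.subset_univ _)
              (fun W _ _ => (by norm_num : 1 ≤ 3).trans (hU3 W))
        _ = N := hprod
    have h2 := hU3 U
    have h3 := hU3 ⟨U', hU'F⟩
    nlinarith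
  have hk3 : 3 ^ Nat.card F ≤ N := by
    calc 3 ^ Nat.card F = ∏ _W : F, 3 := by
          rw [Finset.prod_const, Finset.card_univ, Nat.card_eq_fintype_card]
      _ ≤ ∏ W : F, Nat.card (W : AddSubgroup V) := Finset.prod_le_prod' (fun W _ => hU3 W)
      _ = N := hprod
  have hklt : Nat.card F < N := lt_of_lt_of_le (Nat.lt_pow_self (by norm_num)) hk3
  have hFne : Nonempty F := hnt.nonempty.to_subtype
  let ψ : S →* Equiv.Perm F := Iimp.perm φ hadd F hmem
  have hψ : 3 * Nat.card ψ.range ≤ 3 ^ Nat.card F := hP _ hklt F S ψ rfl hodd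
  have hker : φ.ker ≤ ψ.ker := by
    intro s hs
    rw [MonoidHom.mem_ker] at hs ⊢
    ext U : 1
    apply Subtype.ext
    change Iimp.img φ hadd s U = U
    rw [Iimp.img_eq_iff]
    intro v
    rw [hs, Equiv.Perm.one_apply]
  have hcardφ : Nat.card φ.range = Nat.card (ψ.ker.map φ) * Nat.card ψ.range := by
    rw [← Subgroup.index_ker φ, ← Subgroup.index_ker ψ, ← Subgroup.relIndex_mul_index hker,
      Subgroup.relIndex_ker]
  have hK : ∀ (U : F), ψ.ker ≤ Iimp.stab φ hadd (U : AddSubgroup V) := by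
    intro U s hs
    rw [MonoidHom.mem_ker] at hs
    have h1 : ψ s U = U := by rw [hs, Equiv.Perm.one_apply]
    exact congrArg Subtype.val h1
  have hQ : ∀ (q : ψ.ker.map φ) (U : F) (v : V),
      ((q : Equiv.Perm V)) v ∈ (U : AddSubgroup V) ↔ v ∈ (U : AddSubgroup V) := by
    rintro ⟨_, s, hs, rfl⟩ U v
    exact Iimp.mem_stab.1 (hK U hs) v
  let f : ∀ U : F, ψ.ker.map φ →* Equiv.Perm (U : AddSubgroup V) := fun U =>
    Iimp.restr (ψ.ker.map φ).subtype U (fun q v => hQ q U v)
  have hQcard : Nat.card (ψ.ker.map φ) ≤ ∏ᶠ U : F, Nat.card (f U).range := by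
    apply card_le_prod _ f
    rintro ⟨_, s, hs, rfl⟩ hq
    apply Subtype.ext
    ext v
    change φ s v = v
    have h0 : φ s 0 = 0 := by
      have := hadd s 0 0
      rw [add_zero] at this
      exact left_eq_add.1 this
    let g : V →+ V := { toFun := φ s, map_zero' := h0, map_add' := hadd s }
    have h1 : sSup F ≤ AddMonoidHom.eqLocus g (AddMonoidHom.id V) := by
      apply sSup_le
      intro U hU u hu
      have h2 := hq ⟨U, hU⟩
      have h3 := congrArg (fun p : Equiv.Perm U => ((p ⟨u, hu⟩ : U) : V)) h2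
      exact h3
    rw [htop] at h1
    exact h1 (AddSubgroup.mem_top v)
  rw [finprod_eq_prod_of_fintype] at hQcard
  have hfU : ∀ U : F, Nat.card (f U).range ≤
      Nat.card (Iimp.stabAct φ hadd (U : AddSubgroup V)).range := by
    intro U
    apply Subgroup.card_le_of_le
    rintro _ ⟨⟨_, s, hs, rfl⟩, rfl⟩
    exact ⟨⟨s, hK U hs⟩, rfl⟩
  have hblock : ∀ U : F, 3 * Nat.card (f U).range ≤ Nat.card (U : AddSubgroup V) ^ 2 := by
    intro U
    have h1 := Iimp.block φ hadd hirr F hF hodd U U.2 (hUodd U) (hI _ (hUlt U))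
    have h2 := hfU U
    omega
  have hfinal : 3 ^ Nat.card F * Nat.card (ψ.ker.map φ) ≤ N ^ 2 := by
    calc 3 ^ Nat.card F * Nat.card (ψ.ker.map φ)
        ≤ 3 ^ Nat.card F * ∏ U : F, Nat.card (f U).range := Nat.mul_le_mul_left _ hQcard
      _ = ∏ U : F, (3 * Nat.card (f U).range) := by
          rw [Finset.prod_mul_distrib, Finset.prod_const, Finset.card_univ,
            Nat.card_eq_fintype_card]
      _ ≤ ∏ U : F, Nat.card (U : AddSubgroup V) ^ 2 := Finset.prod_le_prod' (fun U _ => hblock U)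
      _ = N ^ 2 := by rw [Finset.prod_pow, hprod]
  calc 3 * Nat.card φ.range = (3 * Nat.card ψ.range) * Nat.card (ψ.ker.map φ) := by
        rw [hcardφ]; ring
    _ ≤ 3 ^ Nat.card F * Nat.card (ψ.ker.map φ) := Nat.mul_le_mul_right _ hψ
    _ ≤ N ^ 2 := hfinal

end EPPA
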