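import Pool.Agent.Lib.MP_4e105e_co.Defs
import Pool.Agent.Lib.MP_4e105e_co.Fld
import Pool.Agent.Lib.MP_4e105e_co.Grp
import Pool.Agent.Lib.MP_4e105e_co.Indep
import Pool.Agent.Lib.MP_4e105e_co.CardC
import Pool.Agent.Lib.MP_4e105e_co.Gal

/-!
Primitive linear groups (module IPRIM).
-/

set_option autoImplicit false

namespace EPPA

namespace IPRIM

/-- The scalars of a group acting by scalars. -/
lemma exists_chi {V S L : Type} [AddCommGroup V] [Group S] [Field L] [Module L V] [Nontrivial V]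
    (φ : S →* Equiv.Perm V) (hinj : Function.Injective φ) (A : Subgroup S)
    (h : ∀ a ∈ A, ∃ l : L, ∀ v : V, φ a v = l • v) :
    ∃ χ : A →* Lˣ, Function.Injective χ ∧ ∀ (a : A) (v : V), φ a v = (χ a : L) • v := by
  classical
  obtain ⟨v₀, hv₀⟩ := exists_ne (0 : V)
  choose f hf using fun a : A => h a a.2
  have huniq : ∀ l l' : L, l • v₀ = l' • v₀ → l = l' := fun l l' h => smul_left_injective L hv₀ h
  let ψ : A →* L :=
    { toFun := f
      map_one' := by
        apply huniq
        rw [← hf 1 v₀]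
        simp
      map_mul' := by
        intro a b
        apply huniq
        rw [← hf (a * b) v₀, mul_smul, ← hf b v₀, ← hf a]
        simp }
  refine ⟨ψ.toHomUnits, ?_, ?_⟩
  · rw [injective_iff_map_eq_one]
    intro a ha
    have h1 : f a = 1 := by
      have := congrArg Units.val ha
      simpa [ψ] using this
    apply Subtype.ext
    apply hinj
    ext v
    rw [hf a v, h1, one_smul]
    simp
  · intro a v
    exact hf a v

theorem inj_case (V S : Type) [AddCommGroup V] [Finite V] [Group S] [Finite S]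
    [Group.IsSolvable S] (φ : S →* Equiv.Perm V) (hinj : Function.Injective φ) (hadd : Adv φ)
    (hirr : Irr φ) (hN : Odd (Nat.card V)) (hodd : Odd (Nat.card S))
    (hno : ∀ F : Set (AddSubgroup V), ¬ IsSystem φ F) :
    3 * Nat.card S ≤ Nat.card V ^ 2 := by
  classical
  have hVn : Nontrivial V := by
    obtain ⟨v, hv⟩ := hirr.1
    exact ⟨v, 0, hv⟩
  -- a maximal abelian normal subgroup
  let Good : Set (Subgroup S) := {B | B.Normal ∧ ∀ x ∈ B, ∀ y ∈ B, x * y = y * x}
  have hbot : (⊥ : Subgroup S) ∈ Good := by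
    refine ⟨inferInstance, ?_⟩
    intro x hx y hy
    rw [Subgroup.mem_bot] at hx hy
    rw [hx, hy]
  obtain ⟨A, hA⟩ := (Set.toFinite Good).exists_maximal ⟨⊥, hbot⟩
  obtain ⟨hAn, hAc⟩ := hA.prop
  have hmax : ∀ B : Subgroup S, B.Normal → (∀ x ∈ B, ∀ y ∈ B, x * y = y * x) → A ≤ B → B = A :=
    fun B h1 h2 h3 => le_antisymm (hA.le_of_ge ⟨h1, h2⟩ h3) h3
  obtain ⟨L, hLf, hLfin, hLm, σ, hσ, hscal, hlin⟩ := field_of_normal φ hadd hirr hno A hAc
  obtain ⟨N, hNn, hAN, hNA, hNc, hCC⟩ := grp A hAn hAc hmax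
  obtain ⟨χ, hχ, hχs⟩ := exists_chi φ hinj A hscal
  let C : Subgroup S :=
    { carrier := {z | ∀ a ∈ A, z * a = a * z}
      one_mem' := fun n _ => by simp
      mul_mem' := by
        intro a b ha hb n hn
        rw [mul_assoc, hb n hn, ← mul_assoc, ha n hn, mul_assoc]
      inv_mem' := by
        intro a ha n hn
        rw [inv_mul_eq_iff_eq_mul, ← mul_assoc, ha n hn, mul_assoc, mul_inv_cancel, mul_one] }
  have hNC : N ≤ C := fun n hn a ha => hNA n hn a ha
  -- sizes
  set Λ := Nat.card L with hΛ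
  set m := Module.finrank L V with hm
  set ν := A.relIndex N with hν
  have hVcard : Nat.card V = Λ ^ m := Module.natCard_eq_pow_finrank (K := L) (V := V)
  have hm1 : 1 ≤ m := Module.finrank_pos
  have hΛodd : Odd Λ := by
    rw [hVcard] at hN
    exact hN.of_dvd_nat (dvd_pow_self _ (by omega))
  have hΛ1 : 1 < Λ := Finite.one_lt_card
  have hAodd : Odd (Nat.card A) := hodd.of_dvd_nat (Subgroup.card_subgroup_dvd_card A)
  have hA2 : 2 * Nat.card A ≤ Λ - 1 := by
    have hd : Nat.card A ∣ Nat.card Lˣ := Subgroup.card_dvd_of_injective χ hχ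
    rw [Nat.card_units] at hd
    obtain ⟨k, hk⟩ := hd
    obtain ⟨t, ht⟩ := hΛodd
    have hkeven : Even k := by
      by_contra hk'
      rw [Nat.not_even_iff_odd] at hk'
      have h1 : Odd (Nat.card A * k) := hAodd.mul hk'
      rw [← hk] at h1
      obtain ⟨u, hu⟩ := h1
      omega
    obtain ⟨j, hj⟩ := hkeven
    have hj0 : j ≠ 0 := by
      rintro rfl
      rw [hj] at hk
      simp at hk
      omega
    rw [← hΛ] at hk
    rw [hk, hj]
    have : 1 ≤ j := Nat.one_le_iff_ne_zero.mpr hj0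
    nlinarith
  have hkerC : σ.ker ≤ C := by
    intro s hs a ha
    rw [MonoidHom.mem_ker] at hs
    obtain ⟨l, hl⟩ := hscal a ha
    apply hinj
    ext v
    rw [map_mul, map_mul, Equiv.Perm.mul_apply, Equiv.Perm.mul_apply, hl, hl, hσ, hs]
    simp
  have hidx : 3 * C.index ≤ Λ := by
    have h1 : C.index ∣ σ.ker.index := Subgroup.index_dvd_of_le hkerC
    have h2 : C.index ≤ σ.ker.index :=
      Nat.le_of_dvd (Nat.pos_of_ne_zero Subgroup.index_ne_zero_of_finite) h1
    rw [Subgroup.index_ker] at h2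
    have hfin : Finite (L ≃+* L) :=
      Finite.of_injective (fun e : L ≃+* L => (e : L → L)) DFunLike.coe_injective
    have h3 : Nat.card σ.range ≤ Nat.card (L ≃+* L) :=
      Nat.card_le_card_of_injective (fun x : σ.range => (x : L ≃+* L)) Subtype.val_injective
    have h4 := galb L hΛodd
    omega
  have hS : 3 * Nat.card S ≤ Λ * Nat.card C := by
    rw [← Subgroup.card_mul_index C]
    nlinarith
  obtain ⟨g, hg, hCcard⟩ := cardC (L := L) hodd A N C hNn hAn hAN hNC (fun c hc a ha => hc a ha)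
    hNc χ hχ (fun c hc h => hCC c hc h)
  have hνm : ν ≤ m ^ 2 := by
    refine indep φ hadd hinj A N hAN hNc hscal (fun n hn => hlin n (fun a ha => hNA n hn a ha)) ?_
    intro z hz hz'
    exact hCC z (fun a ha => hNA z hz a ha) hz'
  rw [hVcard, ← pow_mul]
  by_cases hν1 : ν = 1
  · have hg1 : 3 ^ g ≤ 1 := by rw [← hν1]; exact hg
    rw [← hν, hν1, one_pow, mul_one] at hCcard
    calc 3 * Nat.card S ≤ Λ * Nat.card C := hS
      _ ≤ Λ * Λ := Nat.mul_le_mul_left _ (by omega)
      _ = Λ ^ 2 := by ring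
      _ ≤ Λ ^ (m * 2) := Nat.pow_le_pow_right (by omega) (by omega)
  · have hνodd : Odd ν := by
      have h1 : ν ∣ Nat.card N := by
        rw [hν]
        unfold Subgroup.relIndex
        exact Subgroup.index_dvd_card _
      exact (hodd.of_dvd_nat (Subgroup.card_subgroup_dvd_card N)).of_dvd_nat h1
    have hν3 : 3 ≤ ν := by
      obtain ⟨t, ht⟩ := hνodd
      omega
    have hm2 : 2 ≤ m := by
      by_contra hlt
      have : m = 1 := by omega
      rw [this] at hνm
      omega
    have hA1 : Nat.card A ≠ 1 := by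
      intro h1
      have hAbot : A = ⊥ := Subgroup.card_eq_one.mp h1
      apply hν1
      rw [hν, Subgroup.relIndex_eq_one]
      intro n hn
      apply hCC n (fun a ha => hNA n hn a ha)
      intro n' hn'
      have := hNc n hn n' hn'
      rw [hAbot, Subgroup.mem_bot] at this
      have h2 : n * n' = n * n' * n⁻¹ * n'⁻¹ * (n' * n) := by group
      rw [h2, this, one_mul]
    have hA3 : 3 ≤ Nat.card A := by
      obtain ⟨t, ht⟩ := hAodd
      omega
    have hΛ7 : 7 ≤ Λ := by omega
    have hnum := num Λ m g hΛ7 hm2 (hg.trans hνm)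
    calc 3 * Nat.card S ≤ Λ * Nat.card C := hS
      _ ≤ Λ * (Nat.card A * ν ^ (g + 1)) := Nat.mul_le_mul_left _ hCcard
      _ ≤ Λ * (Λ * (m ^ 2) ^ (g + 1)) := by
          apply Nat.mul_le_mul_left
          exact Nat.mul_le_mul (by omega) (Nat.pow_le_pow_left hνm _)
      _ ≤ Λ * (Λ * Λ ^ (2 * m - 2)) := by
          apply Nat.mul_le_mul_left
          exact Nat.mul_le_mul_left _ hnum
      _ = Λ ^ (m * 2) := by
          rw [← pow_succ', ← pow_succ']
          congr 1
          omega

end IPRIM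

theorem irr_prim (V S : Type) [AddCommGroup V] [Finite V] [Group S] [Finite S]
    [Group.IsSolvable S] (φ : S →* Equiv.Perm V) (hadd : Adv φ) (hirr : Irr φ)
    (hN : Odd (Nat.card V)) (hodd : Odd (Nat.card S))
    (hno : ∀ F : Set (AddSubgroup V), ¬ IsSystem φ F) :
    3 * Nat.card φ.range ≤ Nat.card V ^ 2 := by
  have hsolv : Group.IsSolvable φ.range :=
    Group.isSolvable_of_surjective φ.rangeRestrict_surjective
  have hodd' : Odd (Nat.card φ.range) :=
    hodd.of_dvd_nat (Subgroup.card_range_dvd φ)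
  refine IPRIM.inj_case V φ.range φ.range.subtype (Subgroup.subtype_injective _) ?_ ?_ hN hodd' ?_
  · rintro ⟨_, s, rfl⟩ v w
    exact hadd s v w
  · refine ⟨hirr.1, fun W hW => hirr.2 W fun s w hw => ?_⟩
    exact hW ⟨φ s, s, rfl⟩ w hw
  · rintro F ⟨h1, h2, h3, h4, h5⟩
    apply hno F
    refine ⟨h1, h2, fun s U hU => ?_, h4, h5⟩
    exact h3 ⟨φ s, s, rfl⟩ U hU

end EPPA
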