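import Pool.Agent.Lib.MP_4e105e_co.Defs
import Pool.Agent.Lib.MP_4e105e_co.Real

set_option autoImplicit false

namespace EPPA

theorem NilLen.sub : ∀ (k : ℕ) (G H : Type) [Group G] [Group H] (f : H →* G),
    Function.Injective f → NilLen k G → NilLen k H := by
  intro k
  induction k with
  | zero =>
    intro G H _ _ f hf hG
    have : Subsingleton G := hG
    exact hf.subsingleton
  | succ k ih =>
    intro G H _ _ f hf hG
    obtain ⟨N, hN, hnil, hk⟩ := hG
    have : (N.comap f).Normal := inferInstance
    refine ⟨N.comap f, inferInstance, ?_, ?_⟩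
    · -- nilpotent
      let g : N.comap f →* N :=
        { toFun := fun x => ⟨f x, x.2⟩
          map_one' := Subtype.ext (map_one f)
          map_mul' := fun x y => Subtype.ext (map_mul f _ _) }
      have hg : Function.Injective g := by
        intro x y hxy
        exact Subtype.ext (hf (congrArg (fun z : N => (z : G)) hxy))
      have : Group.IsNilpotent g.range := inferInstance
      exact Group.nilpotent_of_surjective (MonoidHom.ofInjective hg).symm.toMonoidHom
        (MonoidHom.ofInjective hg).symm.surjective
    · refine ih (G ⧸ N) (H ⧸ N.comap f) (QuotientGroup.map (N.comap f) N f le_rfl) ?_ hk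
      rw [injective_iff_map_eq_one]
      intro x
      induction x using QuotientGroup.induction_on with
      | H x =>
        intro hx
        rw [QuotientGroup.map_mk, QuotientGroup.eq_one_iff] at hx
        exact (QuotientGroup.eq_one_iff x).mpr hx

theorem NilLen.of_derived (k : ℕ) (G : Type) [Group G] (h : derivedSeries G k = ⊥) :
    NilLen k G := by
  induction k generalizing G with
  | zero =>
    rw [derivedSeries_zero] at h
    exact Subgroup.subsingleton_iff.mp (subsingleton_of_bot_eq_top h.symm)
  | succ k ih =>
    have hn : (derivedSeries G k).Normal := derivedSeries_normal G k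
    refine ⟨derivedSeries G k, hn, ?_, ?_⟩
    · let _ : CommGroup (derivedSeries G k) :=
        { (inferInstance : Group (derivedSeries G k)) with
          mul_comm := fun x y => by
            apply Subtype.ext
            have h0 := Subgroup.commutator_mem_commutator x.2 y.2
            rw [← derivedSeries_succ, h, Subgroup.mem_bot] at h0
            exact commutatorElement_eq_one_iff_mul_comm.mp h0 }
      exact CommGroup.isNilpotent
    · apply ih
      rw [← map_derivedSeries_eq (QuotientGroup.mk'_surjective (derivedSeries G k)) k,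
        Subgroup.map_eq_bot_iff, QuotientGroup.ker_mk']

namespace Nil

theorem inner (k : ℕ)
    (ih : ∀ (n : ℕ) (Ω G : Type) [Group G] (φ : G →* Equiv.Perm Ω) (b : ℕ → Ω),
      NilLen k G → Realises φ n b → n ≤ k + 1) :
    ∀ (c n : ℕ) (Ω G H : Type) [Group G] [Group H] (φ : G →* Equiv.Perm Ω) (b : ℕ → Ω)
      (π : G →* H), NilLen k H → Group.IsNilpotent π.ker → Group.nilpotencyClass π.ker ≤ c →
      Realises φ n b → n ≤ k + 2 := by
  intro c
  induction c with
  | zero =>
    intro n Ω G H _ _ φ b π hk hnil hcl hb
    have h1 : Subsingleton π.ker :=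
      Group.nilpotencyClass_zero_iff_subsingleton.mp (Nat.le_zero.mp hcl)
    have h2 : Function.Injective π := by
      rw [injective_iff_map_eq_one]
      intro a ha
      exact congrArg (fun z : π.ker => (z : G)) (h1.elim ⟨a, ha⟩ 1)
    have := ih n Ω G φ b (NilLen.sub k H G π h2 hk) hb
    omega
  | succ c ihc =>
    intro n Ω G H _ _ φ b π hk hnil hcl hb
    let Z : Subgroup G := (Subgroup.center π.ker).map π.ker.subtype
    have hZn : Z.Normal := inferInstance
    have hZ : ∀ z ∈ Z, z ∈ π.ker ∧ ∀ g ∈ π.ker, g * z = z * g := by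
      rintro z ⟨w, hw, rfl⟩
      refine ⟨w.2, fun g hg => ?_⟩
      exact congrArg (fun z : π.ker => (z : G)) (Subgroup.mem_center_iff.mp hw ⟨g, hg⟩)
    let r : Setoid Ω :=
      { r := fun x y => ∃ z ∈ Z, φ z x = y
        iseqv :=
          { refl := fun x => ⟨1, Z.one_mem, by rw [map_one]; rfl⟩
            symm := by
              rintro x y ⟨z, hz, rfl⟩
              exact ⟨z⁻¹, Z.inv_mem hz, Real.inv_app φ z x⟩
            trans := by
              rintro x y w ⟨z, hz, rfl⟩ ⟨z', hz', rfl⟩
              exact ⟨z' * z, Z.mul_mem hz' hz, by rw [map_mul]; rfl⟩ } }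
    have hr : InvSetoid φ r := by
      rintro g x y ⟨z, hz, rfl⟩
      refine ⟨g * z * g⁻¹, hZn.conj_mem z hz g, ?_⟩
      rw [map_mul, map_mul, Equiv.Perm.mul_apply, Equiv.Perm.mul_apply, Real.inv_app]
    rcases hb.all_or r hr with hsep | hall
    · -- the quotient
      obtain ⟨ψ, hψ, hψb⟩ := hb.quot r hr hsep
      have hZψ : ∀ z ∈ Z, ψ z = 1 := by
        intro z hz
        apply Equiv.ext
        intro q
        induction q using Quotient.inductionOn with
        | h x =>
          rw [hψ]
          exact Quotient.sound (r.symm' ⟨z, hz, rfl⟩)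
      let ψ' : G ⧸ Z →* Equiv.Perm (Quotient r) := QuotientGroup.lift Z ψ hZψ
      let π' : G ⧸ Z →* H := QuotientGroup.lift Z π (fun z hz => (hZ z hz).1)
      let f : π.ker →* π'.ker :=
        { toFun := fun x => ⟨QuotientGroup.mk (x : G), x.2⟩
          map_one' := rfl
          map_mul' := fun x y => rfl }
      have hf : ∀ z ∈ Subgroup.center π.ker, f z = 1 := by
        intro z hz
        apply Subtype.ext
        exact (QuotientGroup.eq_one_iff (z : G)).mpr ⟨z, hz, rfl⟩
      let f' : π.ker ⧸ Subgroup.center π.ker →* π'.ker :=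
        QuotientGroup.lift (Subgroup.center π.ker) f hf
      have hf's : Function.Surjective f' := by
        rintro ⟨y, hy⟩
        induction y using QuotientGroup.induction_on with
        | H y => exact ⟨QuotientGroup.mk (⟨y, hy⟩ : π.ker), rfl⟩
      have hnil' : Group.IsNilpotent π'.ker := Group.nilpotent_of_surjective f' hf's
      have hcl' : Group.nilpotencyClass π'.ker ≤ c := by
        have h1 := Group.nilpotencyClass_le_of_surjective f' hf's
        rw [Group.nilpotencyClass_quotient_center] at h1
        omega
      refine ihc n (Quotient r) (G ⧸ Z) H ψ' _ π' hk hnil' hcl' ⟨hψb.1, fun D g hD hg => ?_⟩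
      obtain ⟨a, ha⟩ := hψb.2 D g hD hg
      exact ⟨QuotientGroup.mk a, ha⟩
    · -- one class
      cases n with
      | zero => omega
      | succ m =>
      rcases Nat.eq_zero_or_pos m with rfl | hm
      · omega
      let S : Subgroup G :=
        { carrier := {g | φ g (b 0) = b 0}
          mul_mem' := by
            intro x y hx hy
            show φ (x * y) (b 0) = b 0
            rw [map_mul, Equiv.Perm.mul_apply, show φ y (b 0) = b 0 from hy]
            exact hx
          one_mem' := by
            show φ 1 (b 0) = b 0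
            rw [map_one]; rfl
          inv_mem' := by
            intro x hx
            show φ x⁻¹ (b 0) = b 0
            have := Real.inv_app φ x (b 0)
            rwa [show φ x (b 0) = b 0 from hx] at this }
      have hst := hb.stab S (fun g hg => hg)
      obtain ⟨ψ, d, hψ, hψd⟩ := hst.sub hm {x | r (b 0) x} (by
        rintro ⟨g, hg⟩ x ⟨z, hz, rfl⟩
        refine ⟨g * z * g⁻¹, hZn.conj_mem z hz g, ?_⟩
        show φ (g * z * g⁻¹) (b 0) = φ g (φ z (b 0))
        have h1 : φ g⁻¹ (b 0) = b 0 := S.inv_mem hg
        rw [map_mul, map_mul, Equiv.Perm.mul_apply, Equiv.Perm.mul_apply, h1]) (by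
        intro i hi
        exact hall (i + 1) (by omega))
      let ρ : S →* H := π.comp S.subtype
      have hker : ∀ s ∈ ρ.ker, ψ s = 1 := by
        rintro s hs
        apply Equiv.ext
        rintro ⟨x, z, hz, rfl⟩
        apply Subtype.ext
        rw [hψ]
        show φ (s : G) (φ z (b 0)) = φ z (b 0)
        have h1 : (s : G) * z = z * s := (hZ z hz).2 s hs
        rw [← Equiv.Perm.mul_apply, ← map_mul, h1, map_mul, Equiv.Perm.mul_apply,
          show φ (s : G) (b 0) = b 0 from s.2]
      let ψ' : S ⧸ ρ.ker →* Equiv.Perm {x | r (b 0) x} := QuotientGroup.lift ρ.ker ψ hker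
      have hkQ : NilLen k (S ⧸ ρ.ker) :=
        NilLen.sub k H _ (QuotientGroup.kerLift ρ) (QuotientGroup.kerLift_injective ρ) hk
      have hfin : m ≤ k + 1 := by
        refine ih m _ (S ⧸ ρ.ker) ψ' d hkQ ⟨hψd.1, fun D g hD hg => ?_⟩
        obtain ⟨a, ha⟩ := hψd.2 D g hD hg
        exact ⟨QuotientGroup.mk a, ha⟩
      omega

end Nil

theorem nil_bound : ∀ (k n : ℕ) (Ω G : Type) [Group G] (φ : G →* Equiv.Perm Ω) (b : ℕ → Ω),
    NilLen k G → Realises φ n b → n ≤ k + 1 := by
  intro k
  induction k with
  | zero =>
    intro n Ω G _ φ b hk hb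
    have : Subsingleton G := hk
    by_contra hcon
    obtain ⟨g, hg⟩ := hb.2 {0} (fun _ => 1) (by
      rintro x rfl
      omega) (by
      rintro x rfl y rfl h
      omega)
    have h1 := hg 0 rfl
    rw [Subsingleton.elim g 1, map_one] at h1
    have := hb.1 0 1 (by omega) (by omega) h1
    omega
  | succ k ih =>
    intro n Ω G _ φ b hk hb
    obtain ⟨N, hN, hnil, hk'⟩ := hk
    refine Nil.inner k ih (Group.nilpotencyClass (QuotientGroup.mk' N).ker) n Ω G (G ⧸ N) φ b
      (QuotientGroup.mk' N) hk' ?_ le_rfl hb
    rw [QuotientGroup.ker_mk']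
    exact hnil

end EPPA
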