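import Pool.Agent.Lib.MP_4e105e_co.Defs
import Pool.Agent.Lib.MP_4e105e_co.Prod

set_option autoImplicit false

namespace EPPA

namespace PermImp

/-- The action on the quotient. -/
def quo {Ω : Type} (P : Subgroup (Equiv.Perm Ω)) (r : Setoid Ω) (hr : InvSetoid P.subtype r) :
    P →* Equiv.Perm (Quotient r) where
  toFun g :=
    { toFun := Quotient.map (g : Equiv.Perm Ω) (fun x y h => hr g x y h)
      invFun := Quotient.map ((g⁻¹ : P) : Equiv.Perm Ω) (fun x y h => hr g⁻¹ x y h)
      left_inv := by
        intro q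
        induction q using Quotient.inductionOn with
        | h x =>
          show Quotient.mk r (((g⁻¹ : P) : Equiv.Perm Ω) ((g : Equiv.Perm Ω) x)) = Quotient.mk r x
          simp
      right_inv := by
        intro q
        induction q using Quotient.inductionOn with
        | h x =>
          show Quotient.mk r ((g : Equiv.Perm Ω) (((g⁻¹ : P) : Equiv.Perm Ω) x)) = Quotient.mk r x
          simp }
  map_one' := by
    apply Equiv.ext
    intro q
    induction q using Quotient.inductionOn with
    | h x => rfl
  map_mul' := by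
    intro a b
    apply Equiv.ext
    intro q
    induction q using Quotient.inductionOn with
    | h x => rfl

theorem quo_mk {Ω : Type} (P : Subgroup (Equiv.Perm Ω)) (r : Setoid Ω)
    (hr : InvSetoid P.subtype r) (g : P) (x : Ω) :
    quo P r hr g (Quotient.mk r x) = Quotient.mk r ((g : Equiv.Perm Ω) x) := rfl

theorem ker_mk {Ω : Type} (P : Subgroup (Equiv.Perm Ω)) (r : Setoid Ω)
    (hr : InvSetoid P.subtype r) (g : (quo P r hr).ker) (x : Ω) :
    Quotient.mk r (((g : P) : Equiv.Perm Ω) x) = Quotient.mk r x := by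
  rw [← quo_mk P r hr, (MonoidHom.mem_ker).mp g.2]
  rfl

/-- The action of the kernel on a class. -/
def cls {Ω : Type} (P : Subgroup (Equiv.Perm Ω)) (r : Setoid Ω) (hr : InvSetoid P.subtype r)
    (q : Quotient r) : (quo P r hr).ker →* Equiv.Perm {x : Ω // Quotient.mk r x = q} where
  toFun g := Equiv.Perm.subtypePerm ((g : P) : Equiv.Perm Ω) (fun x => by rw [ker_mk P r hr g x])
  map_one' := by
    apply Equiv.ext
    intro x
    rfl
  map_mul' := by
    intro a b
    apply Equiv.ext
    intro x
    rfl

theorem main (N : ℕ) (hN : ∀ M, M < N → PermB M) (Ω : Type) [Finite Ω] [Nonempty Ω]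
    (P : Subgroup (Equiv.Perm Ω)) [Group.IsSolvable P] (hcard : Nat.card Ω = N)
    (hodd : Odd (Nat.card P)) (r : Setoid Ω) (hr : InvSetoid P.subtype r) (h1 : r ≠ ⊥)
    (h2 : r ≠ ⊤) : 3 * Nat.card P ≤ 3 ^ N := by
  classical
  have : Fintype (Quotient r) := Fintype.ofFinite _
  have : Fintype Ω := Fintype.ofFinite _
  have hne : Nonempty (Quotient r) := Nonempty.map (Quotient.mk r) inferInstance
  -- the number of classes
  have ht : Nat.card (Quotient r) < N := by
    rw [← hcard, Nat.card_eq_fintype_card, Nat.card_eq_fintype_card]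
    refine Fintype.card_lt_of_surjective_not_injective (Quotient.mk r) Quotient.mk_surjective ?_
    intro hinj
    apply h1
    rw [eq_bot_iff]
    intro x y hxy
    exact hinj (Quotient.sound hxy)
  have hm : ∀ q : Quotient r, Nat.card {x : Ω // Quotient.mk r x = q} < N := by
    intro q
    rw [← hcard, Nat.card_eq_fintype_card, Nat.card_eq_fintype_card]
    by_contra hcon
    apply h2
    have hall : ∀ x : Ω, Quotient.mk r x = q := by
      by_contra hx
      push Not at hx
      obtain ⟨x, hx⟩ := hx
      exact hcon (Fintype.card_subtype_lt hx)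
    rw [eq_top_iff]
    intro x y _
    exact Quotient.exact ((hall x).trans (hall y).symm)
  have hsum : ∑ q : Quotient r, Nat.card {x : Ω // Quotient.mk r x = q} = N := by
    rw [← hcard, ← Nat.card_sigma]
    exact Nat.card_congr (Equiv.sigmaFiberEquiv (Quotient.mk r))
  set K := (quo P r hr).ker with hK
  have hPcard : Nat.card P = Nat.card K * Nat.card (quo P r hr).range := by
    rw [← Subgroup.index_ker, Subgroup.card_mul_index]
  have hoddK : Odd (Nat.card K) := Odd.of_dvd_nat hodd (Subgroup.card_subgroup_dvd_card K)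
  have hsolK : Group.IsSolvable K := inferInstance
  have hKle : Nat.card K ≤ ∏ q : Quotient r, Nat.card (cls P r hr q).range := by
    have := card_le_prod (fun q : Quotient r => Equiv.Perm {x : Ω // Quotient.mk r x = q})
      (fun q => cls P r hr q) (K := K) (by
        intro k hk
        apply Subtype.ext
        apply Subtype.ext
        apply Equiv.ext
        intro x
        have := congrArg (fun e : Equiv.Perm {y : Ω // Quotient.mk r y = Quotient.mk r x} =>
          ((e ⟨x, rfl⟩ : {y : Ω // Quotient.mk r y = Quotient.mk r x}) : Ω))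
          (hk (Quotient.mk r x))
        exact this)
    rwa [finprod_eq_prod_of_fintype] at this
  have hcl : ∀ q : Quotient r, 3 * Nat.card (cls P r hr q).range ≤
      3 ^ (Nat.card {x : Ω // Quotient.mk r x = q}) := by
    intro q
    have : Nonempty {x : Ω // Quotient.mk r x = q} := by
      obtain ⟨x, hx⟩ := Quotient.mk_surjective q
      exact ⟨⟨x, hx⟩⟩
    exact hN _ (hm q) _ K (cls P r hr q) rfl hoddK
  have hquo : 3 * Nat.card (quo P r hr).range ≤ 3 ^ (Nat.card (Quotient r)) :=
    hN _ ht _ P (quo P r hr) rfl hodd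
  have hprod : 3 ^ (Nat.card (Quotient r)) * Nat.card K ≤ 3 ^ N := by
    calc 3 ^ (Nat.card (Quotient r)) * Nat.card K
        ≤ 3 ^ (Nat.card (Quotient r)) * ∏ q : Quotient r, Nat.card (cls P r hr q).range :=
          Nat.mul_le_mul_left _ hKle
      _ = ∏ q : Quotient r, (3 * Nat.card (cls P r hr q).range) := by
          rw [Finset.prod_mul_distrib, Finset.prod_const, Finset.card_univ,
            Nat.card_eq_fintype_card]
      _ ≤ ∏ q : Quotient r, 3 ^ (Nat.card {x : Ω // Quotient.mk r x = q}) :=
          Finset.prod_le_prod' (fun q _ => hcl q)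
      _ = 3 ^ N := by rw [Finset.prod_pow_eq_pow_sum, hsum]
  have hfin : 3 ^ (Nat.card (Quotient r)) * (3 * Nat.card P) ≤
      3 ^ (Nat.card (Quotient r)) * 3 ^ N := by
    calc 3 ^ (Nat.card (Quotient r)) * (3 * Nat.card P)
        = (3 * Nat.card (quo P r hr).range) * (3 ^ (Nat.card (Quotient r)) * Nat.card K) := by
          rw [hPcard]; ring
      _ ≤ 3 ^ (Nat.card (Quotient r)) * 3 ^ N := Nat.mul_le_mul hquo hprod
  exact Nat.le_of_mul_le_mul_left hfin (by positivity)

end PermImp

theorem perm_imprim (N : ℕ) (hN : ∀ M, M < N → PermB M) (Ω P : Type) [Finite Ω] [Nonempty Ω]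
    [Group P] [Finite P] [Group.IsSolvable P] (φ : P →* Equiv.Perm Ω) (hcard : Nat.card Ω = N)
    (hodd : Odd (Nat.card P)) (r : Setoid Ω) (hr : InvSetoid φ r) (h1 : r ≠ ⊥) (h2 : r ≠ ⊤) :
    3 * Nat.card φ.range ≤ 3 ^ N := by
  have : Group.IsSolvable φ.range := Group.isSolvable_of_surjective φ.rangeRestrict_surjective
  refine PermImp.main N hN Ω φ.range hcard (Odd.of_dvd_nat hodd (Subgroup.card_range_dvd φ)) r ?_
    h1 h2
  rintro ⟨_, g, rfl⟩ x y hxy
  exact hr g x y hxy

end EPPA
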