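import Pool.Agent.Lib.MP_4e105e_co.Defs

set_option autoImplicit false

namespace EPPA

namespace PermPrim

/-- A nontrivial solvable group has a nontrivial abelian normal subgroup. -/
theorem exists_abelian {Q : Type} [Group Q] [Group.IsSolvable Q] [Nontrivial Q] :
    ∃ A : Subgroup Q, A.Normal ∧ A ≠ ⊥ ∧ ∀ x ∈ A, ∀ y ∈ A, x * y = y * x := by
  classical
  have h : ∃ n, derivedSeries Q n = ⊥ := Group.IsSolvable.solvable
  obtain ⟨n, hn, hmin⟩ : ∃ n, derivedSeries Q n = ⊥ ∧ ∀ m < n, derivedSeries Q m ≠ ⊥ :=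
    ⟨Nat.find h, Nat.find_spec h, fun m hm => Nat.find_min h hm⟩
  cases n with
  | zero =>
    exfalso
    rw [derivedSeries_zero] at hn
    exact top_ne_bot hn
  | succ m =>
    refine ⟨derivedSeries Q m, derivedSeries_normal Q m, hmin m (Nat.lt_succ_self m), ?_⟩
    intro x hx y hy
    rw [derivedSeries_succ] at hn
    have h0 := Subgroup.commutator_mem_commutator hx hy
    rw [hn, Subgroup.mem_bot] at h0
    exact commutatorElement_eq_one_iff_mul_comm.mp h0

/-- The orbit relation of a subgroup. -/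
def orb {Ω : Type} {Q : Subgroup (Equiv.Perm Ω)} (B : Subgroup Q) : Setoid Ω where
  r x y := ∃ b ∈ B, (b : Equiv.Perm Ω) x = y
  iseqv :=
    { refl := fun x => ⟨1, B.one_mem, rfl⟩
      symm := by
        rintro x y ⟨b, hb, rfl⟩
        exact ⟨b⁻¹, B.inv_mem hb, by simp⟩
      trans := by
        rintro x y z ⟨b, hb, rfl⟩ ⟨c, hc, rfl⟩
        exact ⟨c * b, B.mul_mem hc hb, rfl⟩ }

theorem orb_inv {Ω : Type} {Q : Subgroup (Equiv.Perm Ω)} (B : Subgroup Q)
    (hB : ∀ q : Q, ∀ b ∈ B, q * b * q⁻¹ ∈ B) (hr : NoSetoid Q.subtype) :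
    B = ⊥ ∨ ∀ x y : Ω, ∃ b ∈ B, (b : Equiv.Perm Ω) x = y := by
  have hinv : InvSetoid Q.subtype (orb B) := by
    rintro q x y ⟨b, hb, rfl⟩
    refine ⟨q * b * q⁻¹, hB q b hb, ?_⟩
    simp [Equiv.Perm.mul_apply]
  rcases hr _ hinv with h | h
  · left
    rw [Subgroup.eq_bot_iff_forall]
    intro b hb
    apply Subtype.ext
    apply Equiv.ext
    intro x
    have : (orb B) x ((b : Equiv.Perm Ω) x) := ⟨b, hb, rfl⟩
    rw [h] at this
    exact (this : x = (b : Equiv.Perm Ω) x).symm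
  · right
    intro x y
    have : (orb B) x y := by rw [h]; trivial
    exact this

/-- The main statement, for subgroups of the symmetric group. -/
theorem main (Ω : Type) [Finite Ω] [Nonempty Ω] (Q : Subgroup (Equiv.Perm Ω))
    [Group.IsSolvable Q] (hodd : Odd (Nat.card Q)) (hr : NoSetoid Q.subtype)
    (hne : Nontrivial Q) (hI : IrrB (Nat.card Ω)) :
    3 * Nat.card Q ≤ Nat.card Ω ^ 3 ∧ 3 ≤ Nat.card Ω := by
  classical
  obtain ⟨A, hAn, hA1, hAc⟩ := exists_abelian (Q := Q)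
  have := hAn
  have htr : ∀ x y : Ω, ∃ a ∈ A, (a : Equiv.Perm Ω) x = y := by
    rcases orb_inv A (fun q b hb => hAn.conj_mem b hb q) hr with h | h
    · exact absurd h hA1
    · exact h
  obtain ⟨x0⟩ := (inferInstance : Nonempty Ω)
  have hreg : ∀ a ∈ A, ∀ b ∈ A, (a : Equiv.Perm Ω) x0 = (b : Equiv.Perm Ω) x0 → a = b := by
    intro a ha b hb hab
    apply Subtype.ext
    apply Equiv.ext
    intro y
    obtain ⟨c, hc, rfl⟩ := htr x0 y
    have e1 : (a : Equiv.Perm Ω) ((c : Equiv.Perm Ω) x0) = (c : Equiv.Perm Ω) ((a : Equiv.Perm Ω) x0) := by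
      have := congrArg (fun q : Q => (q : Equiv.Perm Ω) x0) (hAc a ha c hc)
      simpa [Equiv.Perm.mul_apply] using this
    have e2 : (b : Equiv.Perm Ω) ((c : Equiv.Perm Ω) x0) = (c : Equiv.Perm Ω) ((b : Equiv.Perm Ω) x0) := by
      have := congrArg (fun q : Q => (q : Equiv.Perm Ω) x0) (hAc b hb c hc)
      simpa [Equiv.Perm.mul_apply] using this
    rw [e1, e2, hab]
  -- the stabiliser
  let S : Subgroup Q :=
    { carrier := {q | (q : Equiv.Perm Ω) x0 = x0}
      mul_mem' := by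
        intro a b ha hb
        show ((a * b : Q) : Equiv.Perm Ω) x0 = x0
        rw [Subgroup.coe_mul, Equiv.Perm.mul_apply, show (b : Equiv.Perm Ω) x0 = x0 from hb]
        exact ha
      one_mem' := rfl
      inv_mem' := by
        intro a ha
        show ((a⁻¹ : Q) : Equiv.Perm Ω) x0 = x0
        rw [Subgroup.coe_inv, Equiv.Perm.inv_eq_iff_eq]
        exact (show (a : Equiv.Perm Ω) x0 = x0 from ha).symm }
  have hS : ∀ s : Q, s ∈ S ↔ (s : Equiv.Perm Ω) x0 = x0 := fun s => Iff.rfl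
  have hdec : ∀ q : Q, ∃ a ∈ A, ∃ s ∈ S, q = a * s := by
    intro q
    obtain ⟨a, ha, hax⟩ := htr x0 ((q : Equiv.Perm Ω) x0)
    refine ⟨a, ha, a⁻¹ * q, ?_, by group⟩
    rw [hS, Subgroup.coe_mul, Equiv.Perm.mul_apply, ← hax]
    simp
  have hcardΩ : Nat.card A = Nat.card Ω := by
    refine Nat.card_congr (Equiv.ofBijective (fun a : A => ((a : Q) : Equiv.Perm Ω) x0) ⟨?_, ?_⟩)
    · intro a b hab
      exact Subtype.ext (hreg a a.2 b b.2 hab)
    · intro y
      obtain ⟨a, ha, hay⟩ := htr x0 y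
      exact ⟨⟨a, ha⟩, hay⟩
  have hcardQ : Nat.card Q = Nat.card A * Nat.card S := by
    rw [← Nat.card_prod]
    symm
    refine Nat.card_congr (Equiv.ofBijective (fun p : A × S => (p.1 : Q) * (p.2 : Q)) ⟨?_, ?_⟩)
    · rintro ⟨a, s⟩ ⟨b, t⟩ h
      simp only at h
      have h1 : ((a : Q) : Equiv.Perm Ω) x0 = ((b : Q) : Equiv.Perm Ω) x0 := by
        have := congrArg (fun q : Q => (q : Equiv.Perm Ω) x0) h
        simp only [Subgroup.coe_mul, Equiv.Perm.mul_apply] at this
        rwa [(hS s).mp s.2, (hS t).mp t.2] at this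
      have h2 : a = b := Subtype.ext (hreg a a.2 b b.2 h1)
      subst h2
      have h3 : s = t := Subtype.ext (mul_left_cancel h)
      rw [h3]
    · intro q
      obtain ⟨a, ha, s, hs, rfl⟩ := hdec q
      exact ⟨(⟨a, ha⟩, ⟨s, hs⟩), rfl⟩
  let _ : CommGroup A := { (inferInstance : Group A) with
    mul_comm := fun a b => Subtype.ext (hAc a a.2 b b.2) }
  let φ' : S →* Equiv.Perm (Additive A) :=
    (Equiv.permCongrHom (Additive.ofMul (α := A))).toMonoidHom.comp
      ((MulAut.toPerm A).comp ((MulAut.conjNormal (H := A)).comp S.subtype))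
  have hφ' : ∀ (s : S) (a : A), φ' s (Additive.ofMul a) =
      Additive.ofMul (⟨(s : Q) * a * (s : Q)⁻¹, hAn.conj_mem a a.2 s⟩ : A) := by
    intro s a
    rfl
  have hadd : Adv φ' := by
    intro s v w
    obtain ⟨a, rfl⟩ := Additive.ofMul.surjective v
    obtain ⟨b, rfl⟩ := Additive.ofMul.surjective w
    rw [← ofMul_mul, hφ', hφ', hφ', ← ofMul_mul]
    congr 1
    apply Subtype.ext
    show (s : Q) * (a * b) * (s : Q)⁻¹ = ((s : Q) * a * (s : Q)⁻¹) * ((s : Q) * b * (s : Q)⁻¹)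
    group
  have hirr : Irr φ' := by
    constructor
    · obtain ⟨a, ha, ha1⟩ := (Subgroup.ne_bot_iff_exists_ne_one).mp hA1 |>.elim
        (fun a ha => (⟨a.1, a.2, fun h => ha (Subtype.ext h)⟩ : ∃ a : Q, a ∈ A ∧ a ≠ 1))
      refine ⟨Additive.ofMul (⟨a, ha⟩ : A), ?_⟩
      intro h
      apply ha1
      have := congrArg (fun v : Additive A => ((Additive.toMul v : A) : Q)) h
      simpa using this
    · intro W hW
      let B : Subgroup Q := Subgroup.map A.subtype (AddSubgroup.toSubgroup' W)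
      have hB : ∀ q : Q, q ∈ B ↔ ∃ h : q ∈ A, Additive.ofMul (⟨q, h⟩ : A) ∈ W := by
        intro q
        constructor
        · rintro ⟨a, ha, rfl⟩
          exact ⟨a.2, ha⟩
        · rintro ⟨h, hw⟩
          exact ⟨⟨q, h⟩, hw, rfl⟩
      have hBn : ∀ q : Q, ∀ b ∈ B, q * b * q⁻¹ ∈ B := by
        intro q b hb
        obtain ⟨a, ha, s, hs, rfl⟩ := hdec q
        obtain ⟨hbA, hbW⟩ := (hB b).mp hb
        have h1 := hW ⟨s, hs⟩ _ hbW
        rw [hφ'] at h1
        have h2 : s * b * s⁻¹ ∈ A := hAn.conj_mem b hbA s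
        have h3 : (a * s) * b * (a * s)⁻¹ = s * b * s⁻¹ := by
          have := hAc a ha _ h2
          calc (a * s) * b * (a * s)⁻¹ = (a * (s * b * s⁻¹)) * a⁻¹ := by group
            _ = ((s * b * s⁻¹) * a) * a⁻¹ := by rw [this]
            _ = _ := by group
        rw [h3, hB]
        exact ⟨h2, h1⟩
      rcases orb_inv B hBn hr with h | h
      · left
        rw [AddSubgroup.eq_bot_iff_forall]
        intro v hv
        obtain ⟨a, rfl⟩ := Additive.ofMul.surjective v
        have h1 : (a : Q) ∈ B := (hB _).mpr ⟨a.2, hv⟩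
        rw [h, Subgroup.mem_bot] at h1
        have h2 : a = 1 := Subtype.ext h1
        rw [h2]; rfl
      · right
        rw [eq_top_iff]
        intro v _
        obtain ⟨a, rfl⟩ := Additive.ofMul.surjective v
        obtain ⟨b, hb, hbx⟩ := h x0 (((a : Q) : Equiv.Perm Ω) x0)
        obtain ⟨hbA, hbW⟩ := (hB b).mp hb
        have h1 : b = a := hreg b hbA a a.2 hbx
        subst h1
        exact hbW
  have hinj : Function.Injective φ' := by
    rw [injective_iff_map_eq_one]
    intro s hs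
    apply Subtype.ext
    apply Subtype.ext
    apply Equiv.ext
    intro y
    obtain ⟨a, ha, rfl⟩ := htr x0 y
    have h1 := hφ' s ⟨a, ha⟩
    rw [hs] at h1
    have h2 : a = (s : Q) * a * (s : Q)⁻¹ := by
      have := congrArg (fun v : Additive A => ((Additive.toMul v : A) : Q)) h1
      simpa using this
    have h3 : (s : Q) * a = a * (s : Q) := by
      calc (s : Q) * a = ((s : Q) * a * (s : Q)⁻¹) * s := by group
        _ = a * s := by rw [← h2]
    have h4 := congrArg (fun q : Q => (q : Equiv.Perm Ω) x0) h3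
    simp only [Subgroup.coe_mul, Equiv.Perm.mul_apply] at h4
    rw [(hS s).mp s.2] at h4
    rw [h4]
    rfl
  have hoddA : Odd (Nat.card A) := Odd.of_dvd_nat hodd (hcardQ ▸ Dvd.intro _ rfl)
  have hoddS : Odd (Nat.card S) := Odd.of_dvd_nat hodd (hcardQ ▸ Dvd.intro_left _ rfl)
  have : Group.IsSolvable S := inferInstance
  have hb := hI (Additive A) S φ' hadd hirr hcardΩ (hcardΩ ▸ hoddA) hoddS
  have hrange : Nat.card φ'.range = Nat.card S :=
    (Nat.card_congr (MonoidHom.ofInjective hinj).toEquiv).symm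
  rw [hrange] at hb
  constructor
  · rw [hcardQ, hcardΩ]
    calc 3 * (Nat.card Ω * Nat.card S) = Nat.card Ω * (3 * Nat.card S) := by ring
      _ ≤ Nat.card Ω * Nat.card Ω ^ 2 := Nat.mul_le_mul_left _ hb
      _ = Nat.card Ω ^ 3 := by ring
  · have h2 : Nat.card Ω ≠ 1 := by
      rw [← hcardΩ]
      intro h
      exact hA1 (Subgroup.card_eq_one.mp h)
    have h3 : Odd (Nat.card Ω) := hcardΩ ▸ hoddA
    obtain ⟨k, hk⟩ := h3
    omega

end PermPrim

theorem perm_prim (Ω P : Type) [Finite Ω] [Nonempty Ω] [Group P] [Finite P] [Group.IsSolvable P]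
    (φ : P →* Equiv.Perm Ω) (hodd : Odd (Nat.card P)) (hr : NoSetoid φ)
    (h1 : ∃ (g : P) (x : Ω), φ g x ≠ x) (hI : IrrB (Nat.card Ω)) :
    3 * Nat.card φ.range ≤ Nat.card Ω ^ 3 ∧ 3 ≤ Nat.card Ω := by
  have : Group.IsSolvable φ.range := Group.isSolvable_of_surjective φ.rangeRestrict_surjective
  refine PermPrim.main Ω φ.range ?_ ?_ ?_ hI
  · exact Odd.of_dvd_nat hodd (Subgroup.card_range_dvd φ)
  · intro r hrr
    apply hr r
    intro g x y hxy
    exact hrr (φ.rangeRestrict g) x y hxy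
  · obtain ⟨g, x, hgx⟩ := h1
    refine ⟨⟨φ.rangeRestrict g, 1, ?_⟩⟩
    intro h
    apply hgx
    have := congrArg (fun q : φ.range => (q : Equiv.Perm Ω) x) h
    simpa using this

end EPPA
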