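import Pool.Agent.Lib.MP_4e105e_co.PermImp
import Pool.Agent.Lib.MP_4e105e_co.PermPrim
import Pool.Agent.Lib.MP_4e105e_co.IrrImp
import Pool.Agent.Lib.MP_4e105e_co.IrrPrim
import Pool.Agent.Lib.MP_4e105e_co.Gal

/-!
The induction for the weak Pálfy–Wolf bounds.
-/

set_option autoImplicit false

namespace EPPA

theorem permB_irrB : ∀ N : ℕ, PermB N ∧ IrrB N := by
  intro N
  induction N using Nat.strong_induction_on with
  | _ N ih =>
    have hP : ∀ M, M < N → PermB M := fun M hM => (ih M hM).1
    have hI : ∀ M, M < N → IrrB M := fun M hM => (ih M hM).2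
    have hirr : IrrB N := by
      intro V S _ _ _ _ _ φ hadd hirr hcard hN hodd
      by_cases hF : ∃ F : Set (AddSubgroup V), IsSystem φ F
      · obtain ⟨F, hF⟩ := hF
        exact irr_imprim N hP hI V S φ hadd hirr hcard hN hodd F hF
      · push Not at hF
        have := irr_prim V S φ hadd hirr (hcard ▸ hN) hodd hF
        rwa [hcard] at this
    refine ⟨?_, hirr⟩
    intro Ω P _ _ _ _ _ φ hcard hodd
    by_cases h1 : ∃ (g : P) (x : Ω), φ g x ≠ x
    · by_cases hr : NoSetoid φ
      · obtain ⟨h2, h3⟩ := perm_prim Ω P φ hodd hr h1 (hcard ▸ hirr)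
        rw [hcard] at h2 h3
        exact h2.trans (cube_le N h3)
      · unfold NoSetoid at hr
        push Not at hr
        obtain ⟨r, hr, hb, ht⟩ := hr
        exact perm_imprim N hP Ω P φ hcard hodd r hr hb ht
    · push Not at h1
      have hbot : φ.range = ⊥ := by
        rw [eq_bot_iff]
        rintro _ ⟨g, rfl⟩
        rw [Subgroup.mem_bot]
        ext x
        exact h1 g x
      rw [hbot, Subgroup.card_bot, mul_one]
      have hpos : 0 < N := by
        rw [← hcard]; exact Nat.card_pos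
      calc 3 = 3 ^ 1 := by norm_num
        _ ≤ 3 ^ N := Nat.pow_le_pow_right (by norm_num) hpos

theorem prim_bound (Ω P : Type) [Finite Ω] [Nonempty Ω] [Group P] [Finite P] [Group.IsSolvable P]
    (φ : P →* Equiv.Perm Ω) (hodd : Odd (Nat.card P)) (hr : NoSetoid φ)
    (h1 : ∃ (g : P) (x : Ω), φ g x ≠ x) :
    3 * Nat.card φ.range ≤ Nat.card Ω ^ 3 :=
  (perm_prim Ω P φ hodd hr h1 (permB_irrB _).2).1

end EPPA
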