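import Pool.Agent.Lib.MP_4e105e_co.Real
import Pool.Agent.Lib.MP_4e105e_co.Chain
import Pool.Agent.Lib.MP_4e105e_co.Prod
import Pool.Agent.Lib.MP_4e105e_co.Top

/-!
Module STEP: the recursive step of the lower bound.
-/

set_option autoImplicit false

namespace EPPA

/-- The orbit relation of a homomorphism to a symmetric group. -/
def Step.orb {Ω G : Type} [Group G] (φ : G →* Equiv.Perm Ω) : Setoid Ω where
  r x y := ∃ g : G, φ g x = y
  iseqv :=
    { refl := fun x => ⟨1, by simp⟩
      symm := fun {x y} ⟨g, hg⟩ => ⟨g⁻¹, by rw [← hg, ← Equiv.Perm.mul_apply, ← map_mul]; simp⟩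
      trans := fun {x y z} ⟨g, hg⟩ ⟨h, hh⟩ => ⟨h * g, by
        rw [map_mul, Equiv.Perm.mul_apply, hg, hh]⟩ }

theorem Step.orb_inv {Ω G : Type} [Group G] (φ : G →* Equiv.Perm Ω) : InvSetoid φ (Step.orb φ) := by
  rintro g x y ⟨h, hh⟩
  refine ⟨g * h * g⁻¹, ?_⟩
  rw [map_mul, map_mul, Equiv.Perm.mul_apply, Equiv.Perm.mul_apply, ← Equiv.Perm.mul_apply (φ g⁻¹),
    ← map_mul, inv_mul_cancel, map_one, Equiv.Perm.one_apply, hh]

theorem Step.trans {Ω G : Type} [Group G] (φ : G →* Equiv.Perm Ω) (hr : NoSetoid φ) (n : ℕ)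
    (hn : 2 ≤ n) (b : ℕ → Ω) (hb : Realises φ n b) (x y : Ω) : ∃ g : G, φ g x = y := by
  have h01 : b 0 ≠ b 1 := by
    intro h
    have := hb.1 0 1 (by omega) (by omega) h
    omega
  obtain ⟨g, hg⟩ := hb.2 {0} (fun _ => 1) (by
    intro x hx
    rw [Set.mem_singleton_iff] at hx
    omega) (by
    intro x hx y hy hxy
    rw [Set.mem_singleton_iff] at hx hy
    omega)
  have hg' := hg 0 rfl
  rcases hr (Step.orb φ) (Step.orb_inv φ) with h | h
  · exfalso
    have : (Step.orb φ) (b 0) (b 1) := ⟨g, hg'⟩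
    rw [h] at this
    exact h01 this
  · have : (Step.orb φ) x y := by rw [h]; trivial
    exact this

theorem Step.prim (x : ℕ → ℝ) (hx : ∀ j, 0 ≤ x j) (n : ℕ) (hn : 2 ≤ n)
    (hl : ∀ j, 1 ≤ j → j < n → Lower j (x j)) (y : ℝ) (hy : 0 ≤ y)
    (hxy : y ^ 2 ≤ 3 * ∏ j ∈ Finset.Icc 1 (n - 1), x j)
    (Ω G : Type) [Finite Ω] [Group G] [Finite G] [Group.IsSolvable G] (φ : G →* Equiv.Perm Ω)
    (b : ℕ → Ω) (hodd : Odd (Nat.card G)) (hb : Realises φ n b) (hr : NoSetoid φ) :
    y ≤ (Nat.card Ω : ℝ) := by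
  classical
  have : Nonempty Ω := ⟨b 0⟩
  have h01 : b 0 ≠ b 1 := by
    intro h
    have := hb.1 0 1 (by omega) (by omega) h
    omega
  have hmove : ∃ (g : G) (x : Ω), φ g x ≠ x := by
    obtain ⟨g, hg⟩ := Step.trans φ hr n hn b hb (b 0) (b 1)
    exact ⟨g, b 0, by rw [hg]; exact h01.symm⟩
  have hpb := prim_bound Ω G φ hodd hr hmove
  -- the image
  have hodd' : Odd (Nat.card φ.range) := by
    have hdvd : Nat.card φ.range ∣ Nat.card G := Subgroup.card_range_dvd φ
    exact Odd.of_dvd_nat hodd hdvd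
  have hsol : Group.IsSolvable φ.range :=
    Group.isSolvable_of_surjective φ.rangeRestrict_surjective
  obtain ⟨m, rfl⟩ : ∃ m, n = m + 1 := ⟨n - 1, by omega⟩
  have hb' : Realises φ.range.subtype (m + 1) b := hb.range
  let H : Subgroup φ.range :=
    { carrier := {g | (g : Equiv.Perm Ω) (b 0) = b 0}
      mul_mem' := by
        intro g h hg hh
        simp only [Set.mem_ofPred_eq, Subgroup.coe_mul, Equiv.Perm.mul_apply] at *
        rw [hh, hg]
      one_mem' := by simp
      inv_mem' := by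
        intro g hg
        simp only [Set.mem_ofPred_eq, Subgroup.coe_inv] at *
        rw [Equiv.Perm.inv_eq_iff_eq]
        exact hg.symm }
  have hst := hb'.stab H (fun g hg => hg)
  have hoddH : Odd (Nat.card H) := Odd.of_dvd_nat hodd' (Subgroup.card_subgroup_dvd_card H)
  have hch := chain x hx m (fun j h1 h2 => hl j h1 (by omega)) Ω H _ _ hoddH hst
  have horb := card_eq_orbit_mul φ.range.subtype (b 0)
  have hfull : Nat.card {y : Ω // ∃ g : φ.range, φ.range.subtype g (b 0) = y} = Nat.card Ω := by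
    refine Nat.card_congr (Equiv.subtypeUnivEquiv ?_)
    intro y
    obtain ⟨g, hg⟩ := Step.trans φ hr (m + 1) hn b hb (b 0) y
    exact ⟨⟨φ g, g, rfl⟩, hg⟩
  rw [hfull] at horb
  have hH : Nat.card {g : φ.range // φ.range.subtype g (b 0) = b 0} = Nat.card H := rfl
  rw [hH] at horb
  have hΩ : 0 < Nat.card Ω := Nat.card_pos
  have h3 : 3 * Nat.card H ≤ Nat.card Ω ^ 2 := by
    rw [horb] at hpb
    have : Nat.card Ω * (3 * Nat.card H) ≤ Nat.card Ω * Nat.card Ω ^ 2 := by
      calc Nat.card Ω * (3 * Nat.card H) = 3 * (Nat.card Ω * Nat.card H) := by ring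
        _ ≤ Nat.card Ω ^ 3 := hpb
        _ = Nat.card Ω * Nat.card Ω ^ 2 := by ring
    exact Nat.le_of_mul_le_mul_left this hΩ
  have h4 : y ^ 2 ≤ (Nat.card Ω : ℝ) ^ 2 := by
    have h5 : (3 : ℝ) * (Nat.card H : ℝ) ≤ (Nat.card Ω : ℝ) ^ 2 := by exact_mod_cast h3
    have h6 : y ^ 2 ≤ 3 * ∏ j ∈ Finset.Icc 1 m, x j := by simpa using hxy
    calc y ^ 2 ≤ 3 * ∏ j ∈ Finset.Icc 1 m, x j := h6
      _ ≤ 3 * (Nat.card H : ℝ) := by linarith
      _ ≤ _ := h5
  exact le_of_sq_le_sq h4 (by positivity)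

theorem lower_step (x : ℕ → ℝ) (hx : ∀ j, 0 ≤ x j) (n : ℕ) (hn : 2 ≤ n)
    (hl : ∀ j, 1 ≤ j → j < n → Lower j (x j)) (y : ℝ) (hy : 0 ≤ y)
    (hxy : y ^ 2 ≤ 3 * ∏ j ∈ Finset.Icc 1 (n - 1), x j) : Lower n y := by
  have main : ∀ N : ℕ, ∀ (Ω G : Type) [Finite Ω] [Group G] [Finite G] [Group.IsSolvable G]
      (φ : G →* Equiv.Perm Ω) (b : ℕ → Ω), Nat.card Ω = N → Odd (Nat.card G) →
      Realises φ n b → y ≤ (N : ℝ) := by
    intro N
    induction N using Nat.strong_induction_on with
    | _ N ih =>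
    intro Ω G _ _ _ _ φ b hcard hodd hb
    by_cases hr : NoSetoid φ
    · rw [← hcard]
      exact Step.prim x hx n hn hl y hy hxy Ω G φ b hodd hb hr
    · unfold NoSetoid at hr
      push Not at hr
      obtain ⟨r, hr, hr1, hr2⟩ := hr
      rcases hb.all_or r hr with h | h
      · obtain ⟨ψ, -, hψ⟩ := hb.quot r hr h
        have hlt : Nat.card (Quotient r) < N := by
          rw [← hcard]
          have hsurj : Function.Surjective (Quotient.mk r) := Quotient.mk_surjective
          refine lt_of_le_of_ne (Nat.card_le_card_of_surjective _ hsurj) ?_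
          intro heq
          apply hr1
          have hinj : Function.Injective (Quotient.mk r) :=
            ((Nat.bijective_iff_surjective_and_card _).2 ⟨hsurj, heq.symm⟩).1
          ext a c
          constructor
          · intro hac
            exact hinj (Quotient.sound hac)
          · rintro rfl
            exact r.refl _
        have := ih _ hlt (Quotient r) G ψ _ rfl hodd hψ
        have h2 : ((Nat.card (Quotient r) : ℕ) : ℝ) ≤ N := by exact_mod_cast hlt.le
        linarith
      · obtain ⟨H, ψ, c, hc⟩ := hb.cls (by omega) r hr h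
        have hlt : Nat.card {x : Ω // r (b 0) x} < N := by
          rw [← hcard]
          refine lt_of_le_of_ne (Nat.card_le_card_of_injective _ Subtype.val_injective) ?_
          intro heq
          apply hr2
          have hsurj : Function.Surjective (Subtype.val : {x : Ω // r (b 0) x} → Ω) :=
            ((Nat.bijective_iff_injective_and_card _).2 ⟨Subtype.val_injective, heq⟩).2
          ext a c
          constructor
          · intro _
            trivial
          · intro _
            obtain ⟨a', rfl⟩ := hsurj a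
            obtain ⟨c', rfl⟩ := hsurj c
            exact r.trans (r.symm a'.2) c'.2
        have hoddH : Odd (Nat.card H) := Odd.of_dvd_nat hodd (Subgroup.card_subgroup_dvd_card H)
        have := ih _ hlt {x : Ω // r (b 0) x} H ψ c rfl hoddH hc
        have h2 : ((Nat.card {x : Ω // r (b 0) x} : ℕ) : ℝ) ≤ N := by exact_mod_cast hlt.le
        linarith
  intro Ω G _ _ _ _ φ b hodd hb
  exact main _ Ω G φ b rfl hodd hb

end EPPA
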