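import Pool.Agent.Lib.MP_4e105e_co.Chain
import Pool.Agent.Lib.MP_4e105e_co.Step

/-!
Module RECUR: the recursion for the lower bound.
-/

set_option autoImplicit false

namespace EPPA

namespace Recur

/-- the bounds -/
noncomputable def xs (j : ℕ) : ℝ :=
  if j ≤ 1 then 1 else if j = 2 then 3 else (3 : ℝ) ^ ((3 / 2 : ℝ) ^ (j - 3))

theorem xs_nonneg (j : ℕ) : 0 ≤ xs j := by
  unfold xs
  split_ifs
  · norm_num
  · norm_num
  · positivity

theorem key (a : ℝ) : ((3 : ℝ) ^ a) ^ 2 * (3 : ℝ) ^ a = ((3 : ℝ) ^ (3 / 2 * a)) ^ 2 := by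
  rw [← Real.rpow_natCast ((3 : ℝ) ^ a) 2, ← Real.rpow_natCast ((3 : ℝ) ^ (3 / 2 * a)) 2,
    ← Real.rpow_mul (by norm_num), ← Real.rpow_mul (by norm_num), ← Real.rpow_add (by norm_num)]
  congr 1
  push_cast
  ring

theorem prod_xs : ∀ m : ℕ, 3 * ∏ j ∈ Finset.Icc 1 (m + 2), xs j
    = ((3 : ℝ) ^ ((3 / 2 : ℝ) ^ m)) ^ 2 := by
  intro m
  induction m with
  | zero =>
    rw [Finset.prod_Icc_succ_top (by norm_num), Finset.prod_Icc_succ_top (by norm_num)]
    simp [xs]
    norm_num
  | succ m ih =>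
    rw [Finset.prod_Icc_succ_top (by omega), ← mul_assoc]
    have e : m + 1 + 1 + 1 = m + 3 := by ring
    have e2 : m + 1 + 1 = m + 2 := by ring
    rw [e2, ih]
    have h3 : xs (m + 2 + 1) = (3 : ℝ) ^ ((3 / 2 : ℝ) ^ m) := by
      unfold xs
      rw [if_neg (by omega), if_neg (by omega)]
      have : m + 2 + 1 - 3 = m := by omega
      rw [this]
    rw [h3, key]
    congr 2
    ring

theorem main : ∀ n : ℕ, 1 ≤ n → Lower n (xs n) := by
  intro n
  induction n using Nat.strong_induction_on with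
  | _ n ih =>
    intro hn
    rcases Nat.lt_or_ge n 3 with h3 | h3
    · interval_cases n
      · simpa [xs] using lower_one
      · simpa [xs] using lower_two
    · refine lower_step xs xs_nonneg n (by omega) (fun j h1 h2 => ih j h2 h1) (xs n)
        (xs_nonneg n) ?_
      obtain ⟨m, rfl⟩ : ∃ m, n = m + 3 := ⟨n - 3, by omega⟩
      have e : m + 3 - 1 = m + 2 := by omega
      rw [e, prod_xs]
      unfold xs
      rw [if_neg (by omega), if_neg (by omega)]
      have : m + 3 - 3 = m := by omega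
      rw [this]

end Recur

theorem lower_main (n : ℕ) (hn : 3 ≤ n) : Lower n ((3 : ℝ) ^ ((3 / 2 : ℝ) ^ (n - 3))) := by
  have h := Recur.main n (by omega)
  unfold Recur.xs at h
  rwa [if_neg (by omega), if_neg (by omega)] at h

end EPPA
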